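import Pool.Agent.MP_ca1109_lc.Ovm.Defs

/-!
# Row AL: algebra of the monoids of DO with commutative subgroups
-/

set_option autoImplicit false

namespace Pool.Agent.MP_ca1109_lc.Ovm

section AL

variable {M : Type} [Monoid M]

theorem al_corner {e x : M} (he : e * e = e) (y : M) :
    (e * x * e) * (e * y * e) = e * x * e * y * e := by
  rw [← mul_assoc, ← mul_assoc, mul_assoc (e * x) e e, he]

theorem al_comm (h : DOA M) {e : M} (he : e * e = e) {x y : M} (hx : ∃ a b, a * x * b = e)
    (hy : ∃ a b, a * y * b = e) : (e * x * e) * (e * y * e) = (e * y * e) * (e * x * e) := by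
  rw [al_corner he, al_corner he, ← (h e x y he hx hy).1, ← (h e y x he hy hx).1]
  exact (h e x y he hx hy).2

theorem al_unit (h : DOA M) {e b : M} (he : e * e = e) (hb : ∃ x y, x * b * y = e) :
    ∃ r, e * b * e * r = e ∧ r * (e * b * e) = e ∧ e * r = r := by
  obtain ⟨u, v, huv⟩ := hb
  have hu : ∃ x y, x * u * y = e := ⟨1, b * v, by rw [one_mul, ← mul_assoc, huv]⟩
  have hb : ∃ x y, x * b * y = e := ⟨u, v, huv⟩
  have hv : ∃ x y, x * v * y = e := ⟨u * b, 1, by rw [mul_one, huv]⟩
  have hbv : ∃ x y, x * (b * v) * y = e := ⟨u, 1, by rw [mul_one, ← mul_assoc, huv]⟩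
  have e1 : e * u * e * (b * v) * e = e := by
    rw [← (h e u (b * v) he hu hbv).1, mul_assoc e u, ← mul_assoc u b v, huv, he, he]
  have e2 : e * (b * v) * e = e * b * e * v * e := by
    rw [← (h e b v he hb hv).1, ← mul_assoc e b v]
  have e3 : (e * u * e) * (e * b * e) * (e * v * e) = e := by
    have : (e * u * e) * (e * b * e) * (e * v * e) = e * u * e * (e * b * e * v * e) := by
      rw [mul_assoc, al_corner he]
    rw [this, ← e2]
    have h2 : e * u * e * (e * (b * v) * e) = e * u * e * (b * v) * e := by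
      rw [← mul_assoc, ← mul_assoc, mul_assoc (e * u) e e, he]
    rw [h2, e1]
  refine ⟨(e * u * e) * (e * v * e), ?_, ?_, ?_⟩
  · rw [← mul_assoc, al_comm h he hb hu, e3]
  · rw [mul_assoc, al_comm h he hv hb, ← mul_assoc, e3]
  · have h1 : e * ((e * u * e) * (e * v * e)) = (e * e) * u * e * (e * v * e) := by
      simp only [mul_assoc]
    rw [h1, he]

theorem al_mul (h : DOA M) {e b c : M} (he : e * e = e) (hb : ∃ x y, x * b * y = e)
    (hc : ∃ x y, x * c * y = e) : ∃ x y, x * (b * c) * y = e := by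
  obtain ⟨r, hr, -, -⟩ := al_unit h he hb
  obtain ⟨r', hr', -, he'⟩ := al_unit h he hc
  refine ⟨e, e * (r' * r), ?_⟩
  have h1 : e * (b * c) * (e * (r' * r)) = (e * b * c * e) * r' * r := by simp only [mul_assoc]
  rw [h1, (h e b c he hb hc).1]
  have h2 : e * b * e * c * e * r' * r = e * b * (e * c * e * r') * r := by simp only [mul_assoc]
  rw [h2, hr', hr]

/-- Products of letters above `e`. -/
theorem al_above (h : DOA M) {e : M} (he : e * e = e) {w : List M}
    (hw : ∀ b ∈ w, ∃ x y, x * b * y = e) : ∃ x y, x * w.prod * y = e := by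
  induction w with
  | nil => exact ⟨e, 1, by simp⟩
  | cons a w ih =>
    rw [List.prod_cons]
    exact al_mul h he (hw a (by simp)) (ih fun b hb => hw b (by simp [hb]))

theorem doa_op (h : DOA M) : DOA Mᵐᵒᵖ := by
  rintro e b c he ⟨x, y, hb⟩ ⟨x', y', hc⟩
  have he' : e.unop * e.unop = e.unop := congrArg MulOpposite.unop he
  have hb' : ∃ x y, x * b.unop * y = e.unop :=
    ⟨y.unop, x.unop, by rw [← hb]; simp [mul_assoc]⟩
  have hc' : ∃ x y, x * c.unop * y = e.unop :=
    ⟨y'.unop, x'.unop, by rw [← hc]; simp [mul_assoc]⟩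
  have h1 := h e.unop c.unop b.unop he' hc' hb'
  constructor
  · apply MulOpposite.unop_injective
    simpa [mul_assoc] using h1.1
  · apply MulOpposite.unop_injective
    simpa [mul_assoc] using h1.2

variable [Finite M]

/-- Two powers agree. -/
theorem al_pair (m : M) : ∃ i j : ℕ, 1 ≤ i ∧ i < j ∧ j ≤ Nat.card M + 1 ∧ m ^ i = m ^ j := by
  classical
  have := Fintype.ofFinite M
  have hcard : Fintype.card M < Fintype.card (Fin (Nat.card M + 1)) := by
    simp [Nat.card_eq_fintype_card]
  obtain ⟨x, y, hxy, hf⟩ := Fintype.exists_ne_map_eq_of_card_lt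
    (fun t : Fin (Nat.card M + 1) => m ^ ((t : ℕ) + 1)) hcard
  have hx := x.2
  have hy := y.2
  rcases lt_or_gt_of_ne hxy with h | h
  · exact ⟨x + 1, y + 1, by omega, by have : (x : ℕ) < y := h; omega, by omega, hf⟩
  · exact ⟨y + 1, x + 1, by omega, by have : (y : ℕ) < x := h; omega, by omega, hf.symm⟩

/-- An idempotent power. -/
theorem al_idem (m : M) : ∃ n : ℕ, m ^ (n + 1) * m ^ (n + 1) = m ^ (n + 1) := by
  obtain ⟨i, j, hi1, hij, -, hpow⟩ := al_pair m
  have hper : ∀ n, i ≤ n → m ^ (n + (j - i)) = m ^ n := by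
    intro n hn
    obtain ⟨t, rfl⟩ := Nat.exists_eq_add_of_le hn
    have h1 : i + t + (j - i) = j + t := by omega
    rw [h1, pow_add, pow_add, hpow]
  have hmul : ∀ t n, i ≤ n → m ^ (n + (j - i) * t) = m ^ n := by
    intro t
    induction t with
    | zero => intro n _; simp
    | succ t ih =>
      intro n hn
      have h1 : n + (j - i) * (t + 1) = (n + (j - i) * t) + (j - i) := by ring
      rw [h1, hper _ (by omega), ih n hn]
  have hpos : 1 ≤ (j - i) * i := Nat.mul_pos (by omega) hi1
  refine ⟨(j - i) * i - 1, ?_⟩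
  have h1 : (j - i) * i - 1 + 1 = (j - i) * i := by omega
  rw [h1, ← pow_add]
  exact hmul i _ (Nat.le_mul_of_pos_left i (by omega))

/-- `e b e` is in the group of `e`, of order at most `card M`. -/
theorem al_pow (h : DOA M) {e b : M} (he : e * e = e) (hb : ∃ x y, x * b * y = e) :
    ∃ p : ℕ, 1 ≤ p ∧ p ≤ Nat.card M ∧ (e * b * e) ^ p = e := by
  obtain ⟨r, -, hr, her⟩ := al_unit h he hb
  obtain ⟨i, j, hi1, hij, hj, hpow⟩ := al_pair (e * b * e)
  set y := e * b * e with hy
  have hey : e * y = y := by rw [hy, ← mul_assoc, ← mul_assoc, he]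
  have key : ∀ n : ℕ, r ^ (n + 1) * y ^ (n + 1) = e := by
    intro n
    induction n with
    | zero => simpa using hr
    | succ n ih =>
      have h1 : r ^ (n + 1 + 1) * y ^ (n + 1 + 1) = r ^ (n + 1) * (r * y) * y ^ (n + 1) := by
        rw [pow_succ r (n + 1), pow_succ' y (n + 1)]
        simp only [mul_assoc]
      have h2 : e * y ^ (n + 1) = y ^ (n + 1) := by rw [pow_succ', ← mul_assoc, hey]
      rw [h1, hr, mul_assoc, h2, ih]
  refine ⟨j - i, by omega, by omega, ?_⟩
  obtain ⟨n, rfl⟩ : ∃ n, i = n + 1 := ⟨i - 1, by omega⟩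
  obtain ⟨t, ht⟩ : ∃ t, j - (n + 1) = t + 1 := ⟨j - (n + 1) - 1, by omega⟩
  have hj2 : j = (n + 1) + (t + 1) := by omega
  have h3 : e * y ^ (t + 1) = y ^ (t + 1) := by rw [pow_succ', ← mul_assoc, hey]
  rw [ht, ← h3]
  calc e * y ^ (t + 1) = (r ^ (n + 1) * y ^ (n + 1)) * y ^ (t + 1) := by rw [key]
    _ = r ^ (n + 1) * y ^ j := by rw [mul_assoc, ← pow_add, hj2]
    _ = e := by rw [← hpow, key]

theorem st_mul_aux (h : DOA M) {p b c x y : M} (hx : p * b * x = p) (hy : p * c * y = p) :
    ∃ z, p * (b * c) * z = p := by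
  obtain ⟨n, he⟩ := al_idem (b * x * (c * y))
  have hpz : p * (b * x * (c * y)) = p := by
    have h1 : p * (b * x * (c * y)) = (p * b * x) * c * y := by simp only [mul_assoc]
    rw [h1, hx, hy]
  have hpe : ∀ k : ℕ, p * (b * x * (c * y)) ^ k = p := by
    intro k
    induction k with
    | zero => simp
    | succ k ih => rw [pow_succ', ← mul_assoc, hpz, ih]
  have hbe : ∃ u v, u * b * v = (b * x * (c * y)) ^ (n + 1) :=
    ⟨1, x * (c * y) * (b * x * (c * y)) ^ n, by rw [pow_succ']; simp only [mul_assoc, one_mul]⟩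
  have hce : ∃ u v, u * c * v = (b * x * (c * y)) ^ (n + 1) :=
    ⟨b * x, y * (b * x * (c * y)) ^ n, by rw [pow_succ']; simp only [mul_assoc]⟩
  have hp := hpe (n + 1)
  set e := (b * x * (c * y)) ^ (n + 1) with hedef
  obtain ⟨r, hr, -, -⟩ := al_unit h he hbe
  obtain ⟨r', hr', -, -⟩ := al_unit h he hce
  refine ⟨e * (r' * r), ?_⟩
  calc p * (b * c) * (e * (r' * r)) = (p * e) * (b * c) * (e * (r' * r)) := by rw [hp]
    _ = p * (e * b * c * e) * r' * r := by simp only [mul_assoc]
    _ = p * (e * b * e * c * e) * r' * r := by rw [(h e b c he hbe hce).1]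
    _ = p * (e * b * (e * c * e * r') * r) := by simp only [mul_assoc]
    _ = p := by rw [hr', hr, hp]

theorem st_of (h : DOA M) {s x b y z : M} (h1 : s * (x * b * y) * z = s) : St s b := by
  obtain ⟨n, he⟩ := al_idem (x * b * y * z)
  have hpz : s * (x * b * y * z) = s := by rw [← mul_assoc, h1]
  have hpe : ∀ k : ℕ, s * (x * b * y * z) ^ k = s := by
    intro k
    induction k with
    | zero => simp
    | succ k ih => rw [pow_succ', ← mul_assoc, hpz, ih]
  have hbe : ∃ u v, u * b * v = (x * b * y * z) ^ (n + 1) :=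
    ⟨x, y * z * (x * b * y * z) ^ n, by rw [pow_succ']; simp only [mul_assoc]⟩
  have hp := hpe (n + 1)
  set e := (x * b * y * z) ^ (n + 1) with hedef
  obtain ⟨r, hr, -, -⟩ := al_unit h he hbe
  refine ⟨e * r, ?_⟩
  calc s * b * (e * r) = (s * e) * b * (e * r) := by rw [hp]
    _ = s * (e * b * e * r) := by simp only [mul_assoc]
    _ = s := by rw [hr, hp]

theorem st_mul (h : DOA M) {s b c : M} (h1 : St s b) (h2 : St s c) : St s (b * c) := by
  obtain ⟨x, hx⟩ := h1
  obtain ⟨y, hy⟩ := h2
  exact st_mul_aux h hx hy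

theorem st_prod (h : DOA M) {s : M} {U : List M} (hU : ∀ a ∈ U, St s a) : St s U.prod := by
  induction U with
  | nil => exact ⟨1, by simp⟩
  | cons a w ih =>
    rw [List.prod_cons]
    exact st_mul h (hU a (by simp)) (ih fun b hb => hU b (by simp [hb]))

theorem st_mem (h : DOA M) {s a : M} {U : List M} (hU : St s U.prod) (ha : a ∈ U) : St s a := by
  obtain ⟨U1, U2, rfl⟩ := List.append_of_mem ha
  obtain ⟨z, hz⟩ := hU
  refine st_of h (x := U1.prod) (y := U2.prod) (z := z) ?_
  rw [List.prod_append, List.prod_cons, ← mul_assoc U1.prod] at hz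
  exact hz

/-- The elements `e b e` with `e` in `M b M`. -/
def AlCor (e : M) : Type := {x : M // ∃ b, (∃ u v, u * b * v = e) ∧ x = e * b * e}

omit [Finite M] in
/-- They are a commutative monoid. -/
@[reducible] def alMon (h : DOA M) {e : M} (he : e * e = e) : CommMonoid (AlCor e) where
  mul x y := ⟨x.1 * y.1, by
    obtain ⟨b, hb, h1⟩ := x.2
    obtain ⟨c, hc, h2⟩ := y.2
    refine ⟨b * c, al_mul h he hb hc, ?_⟩
    rw [h1, h2, al_corner he, ← mul_assoc e b c, (h e b c he hb hc).1]⟩
  one := ⟨e, 1, ⟨e, 1, by simp⟩, by rw [mul_one, he]⟩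
  mul_assoc x y z := Subtype.ext (mul_assoc x.1 y.1 z.1)
  one_mul x := Subtype.ext (by
    obtain ⟨b, hb, h1⟩ := x.2
    show e * x.1 = x.1
    rw [h1, ← mul_assoc, ← mul_assoc, he])
  mul_one x := Subtype.ext (by
    obtain ⟨b, hb, h1⟩ := x.2
    show x.1 * e = x.1
    rw [h1, mul_assoc (e * b) e e, he])
  mul_comm x y := Subtype.ext (by
    obtain ⟨b, hb, h1⟩ := x.2
    obtain ⟨c, hc, h2⟩ := y.2
    show x.1 * y.1 = y.1 * x.1
    rw [h1, h2]
    exact al_comm h he hb hc)

/-- Equal letters and counts give equal products in the group of `e`. -/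
theorem al_count [DecidableEq M] (h : DOA M) {k : ℕ} (hk : ∀ p, 1 ≤ p → p ≤ Nat.card M → p ∣ k)
    {e : M} (he : e * e = e) {u v : List M} (hu : ∀ b ∈ u, ∃ x y, x * b * y = e)
    (hm : ∀ a, a ∈ u ↔ a ∈ v) (hc : ∀ a, u.count a ≡ v.count a [MOD k]) :
    e * u.prod * e = e * v.prod * e := by
  classical
  let _ : CommMonoid (AlCor e) := alMon h he
  let f : M → AlCor e := fun a => if ha : ∃ u v, u * a * v = e then ⟨e * a * e, a, ha, rfl⟩ else 1
  have hf : ∀ w : List M, (∀ a ∈ w, ∃ x y, x * a * y = e) →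
      ((w.map f).prod).1 = e * w.prod * e := by
    intro w
    induction w with
    | nil => intro _; show e = e * 1 * e; rw [mul_one, he]
    | cons a w ih =>
      intro hw
      rw [List.map_cons, List.prod_cons, List.prod_cons]
      show (f a).1 * ((w.map f).prod).1 = _
      rw [ih fun b hb => hw b (by simp [hb])]
      have ha := hw a (by simp)
      have hw' : ∃ x y, x * w.prod * y = e := al_above h he fun b hb => hw b (by simp [hb])
      have h1 : (f a).1 = e * a * e := by simp only [f, dif_pos ha]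
      rw [h1, al_corner he, ← mul_assoc e a w.prod, (h e a w.prod he ha hw').1]
  have hv : ∀ a ∈ v, ∃ x y, x * a * y = e := fun a ha => hu a ((hm a).2 ha)
  rw [← hf u hu, ← hf v hv]
  suffices hprod : (u.map f).prod = (v.map f).prod by rw [hprod]
  rw [Finset.prod_list_map_count, Finset.prod_list_map_count]
  have ht : u.toFinset = v.toFinset := by
    ext a; simp [hm a]
  rw [ht]
  refine Finset.prod_congr rfl fun a ha => ?_
  have haA : ∃ x y, x * a * y = e := hv a (by simpa using ha)
  obtain ⟨p, hp1, hp2, hp3⟩ := al_pow h he haA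
  have hone : f a ^ p = 1 := by
    have hval : ∀ n : ℕ, (f a ^ (n + 1)).1 = (f a).1 ^ (n + 1) := by
      intro n
      induction n with
      | zero => simp only [zero_add, pow_one]
      | succ n ih =>
        rw [pow_succ, pow_succ _ (n + 1), ← ih]
        rfl
    obtain ⟨n, rfl⟩ : ∃ n, p = n + 1 := ⟨p - 1, by omega⟩
    apply Subtype.ext
    show (f a ^ (n + 1)).1 = e
    have h1 : (f a).1 = e * a * e := by simp only [f, dif_pos haA]
    rw [hval, h1]
    exact hp3
  have key : ∀ n m : ℕ, n ≡ m [MOD p] → f a ^ n = f a ^ m := by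
    intro n m hnm
    rw [← Nat.mod_add_div n p, ← Nat.mod_add_div m p, pow_add, pow_add, pow_mul, pow_mul, hone,
      one_pow, one_pow, hnm]
  exact key _ _ ((hc a).of_dvd (hk p hp1 hp2))

omit [Finite M] in
theorem al_last {s u v e : M} {n : ℕ} (he : e * e = e) (hse : s * e = s)
    (hu : (e * u * e) ^ (n + 1) = e) (huv : e * u * e = e * v * e)
    (h1 : ∃ z, z * (s * u) = s * v) : s * u = s * v := by
  obtain ⟨z, hz⟩ := h1
  set g := e * u * e with hg
  have heg : e * g = g := by rw [hg, ← mul_assoc, ← mul_assoc, he]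
  set r := g ^ n * e with hr
  have hre : r * e = r := by rw [hr, mul_assoc, he]
  have her : e * r = r := by
    rw [hr]
    rcases n with _ | n
    · simp [he]
    · rw [pow_succ', ← mul_assoc, ← mul_assoc, heg]
  have hrg : r * g = e := by
    rw [hr, mul_assoc, heg, ← pow_succ, hu]
  have hgr : g * r = e := by
    rw [hr, ← mul_assoc, ← pow_succ', hu, he]
  have hru : r * u * r = r := by
    have h2 : r * u * r = (r * e) * u * (e * r) := by rw [hre, her]
    have h3 : (r * e) * u * (e * r) = r * g * r := by rw [hg]; simp only [mul_assoc]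
    rw [h2, h3, hrg, her]
  have hrv : r * v * r = r := by
    have h2 : r * v * r = (r * e) * v * (e * r) := by rw [hre, her]
    have h3 : (r * e) * v * (e * r) = r * (e * v * e) * r := by simp only [mul_assoc]
    rw [h2, h3, ← huv, hrg, her]
  have hsu : s * g * (r * u) = s * u := by
    have h2 : s * g * (r * u) = s * (g * r) * u := by simp only [mul_assoc]
    rw [h2, hgr, hse]
  have hsv : s * g * (r * v) = s * v := by
    have h2 : s * g * (r * v) = s * (g * r) * v := by simp only [mul_assoc]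
    rw [h2, hgr, hse]
  have a1 : s * v * (r * u) = s * u := by
    have h2 : s * g * (r * v) * (r * u) = s * g * ((r * v * r) * u) := by simp only [mul_assoc]
    rw [← hsv, h2, hrv, hsu]
  have a2 : s * u * (r * u) = s * u := by
    have h2 : s * g * (r * u) * (r * u) = s * g * ((r * u * r) * u) := by simp only [mul_assoc]
    calc s * u * (r * u) = s * g * (r * u) * (r * u) := by rw [hsu]
      _ = s * u := by rw [h2, hru, hsu]
  calc s * u = s * v * (r * u) := a1.symm
    _ = z * (s * u) * (r * u) := by rw [hz]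
    _ = z * (s * u * (r * u)) := by rw [mul_assoc z]
    _ = s * v := by rw [a2, hz]

/-- The last step: `X = s * prod U`, `Y = s * prod V` are in one L-class. -/
theorem al_final (h : DOA M) {k : ℕ} (hk : ∀ p, 1 ≤ p → p ≤ Nat.card M → p ∣ k) {s w : M}
    {U V : List M} (hU : ∀ a ∈ U, St s a) (hm : ∀ a, a ∈ U ↔ a ∈ V)
    [DecidableEq M] (hc : ∀ a, U.count a ≡ V.count a [MOD k])
    (hw : s * V.prod = w * (s * U.prod)) : s * U.prod = s * V.prod := by
  obtain ⟨y, hy⟩ := st_prod h hU
  obtain ⟨n, he⟩ := al_idem (U.prod * y)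
  have hpz : s * (U.prod * y) = s := by rw [← mul_assoc, hy]
  have hpe : ∀ k : ℕ, s * (U.prod * y) ^ k = s := by
    intro k
    induction k with
    | zero => simp
    | succ k ih => rw [pow_succ', ← mul_assoc, hpz, ih]
  have hp := hpe (n + 1)
  have hab : ∀ a ∈ U, ∃ x z, x * a * z = (U.prod * y) ^ (n + 1) := by
    intro a ha
    obtain ⟨U1, U2, hU12⟩ := List.append_of_mem ha
    refine ⟨U1.prod, U2.prod * y * (U.prod * y) ^ n, ?_⟩
    rw [pow_succ']
    have h1 : U.prod = U1.prod * (a * U2.prod) := by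
      rw [hU12, List.prod_append, List.prod_cons]
    conv_rhs => rw [h1]
    conv_lhs => rw [h1]
    simp only [mul_assoc]
  set e := (U.prod * y) ^ (n + 1) with hedef
  obtain ⟨p, hp1, -, hp3⟩ := al_pow h he (al_above h he hab)
  obtain ⟨m, rfl⟩ : ∃ m, p = m + 1 := ⟨p - 1, by omega⟩
  exact al_last he hp hp3 (al_count h hk he hab hm hc) ⟨w, hw.symm⟩

end AL

end Pool.Agent.MP_ca1109_lc.Ovm
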