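import Pool.Agent.MP_ca1109_lc.Ovr.Test

/-!
# Products in monoids over overlapping blocks: definitions

* `DOA M`: the monoid `M` is in DO and its subgroups are commutative.
* `St s b`: the element `s * b` is in the R-class of `s`.
* `bf a w`, `af a w`: the parts of the word `w` before and after the first `a`; `bl`, `al`: before and
  after the last `a`.
* `Sim k n u v`: `u` and `v` have the same letters with the same numbers modulo `k`; recursively, `n`
  times, also for these parts.
-/

namespace Pool.Agent.MP_ca1109_lc.Ovm

/-- The finite monoid `M` is in DO and its subgroups are commutative: if `e` is idempotent and in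
`M b M` and in `M c M`, then `e b c e = e b e c e = e c b e`. -/
def DOA (M : Type) [Monoid M] : Prop :=
  ∀ e b c : M, e * e = e → (∃ x y, x * b * y = e) → (∃ x y, x * c * y = e) →
    e * b * c * e = e * b * e * c * e ∧ e * b * c * e = e * c * b * e

/-- The element `s * b` is in the R-class of `s`. -/
def St {M : Type} [Monoid M] (s b : M) : Prop := ∃ z, s * b * z = s

section words

variable {M : Type} [DecidableEq M]

/-- The part before the first `a`. -/
def bf (a : M) (u : List M) : List M := u.takeWhile (· ≠ a)

/-- The part after the first `a`. -/
def af (a : M) (u : List M) : List M := (u.dropWhile (· ≠ a)).tail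

/-- The part before the last `a`. -/
def bl (a : M) (u : List M) : List M := (af a u.reverse).reverse

/-- The part after the last `a`. -/
def al (a : M) (u : List M) : List M := (bf a u.reverse).reverse

/-- The same letters, the same numbers of letters modulo `k`; recursively also for the parts before
and after the first and the last letter `a`, for all `a`. -/
def Sim (k : ℕ) : ℕ → List M → List M → Prop
  | 0 => fun u v => ∀ a, (a ∈ u ↔ a ∈ v) ∧ u.count a ≡ v.count a [MOD k]
  | n + 1 => fun u v => (∀ a, (a ∈ u ↔ a ∈ v) ∧ u.count a ≡ v.count a [MOD k]) ∧
      ∀ a, Sim k n (bf a u) (bf a v) ∧ Sim k n (af a u) (af a v) ∧ Sim k n (bl a u) (bl a v) ∧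
        Sim k n (al a u) (al a v)

end words

end Pool.Agent.MP_ca1109_lc.Ovm
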