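import Pool.Agent.MP_ca1109_lc.Ovm.Defs

/-!
# Row EQ1: similar words: reversal, monotonicity, injective maps
-/

namespace Pool.Agent.MP_ca1109_lc.Ovm

section eq1

variable {M : Type} [DecidableEq M]

theorem eq1_rev_bf (a : M) (u : List M) : bf a u.reverse = (al a u).reverse := by
  unfold al
  rw [List.reverse_reverse]

theorem eq1_rev_af (a : M) (u : List M) : af a u.reverse = (bl a u).reverse := by
  unfold bl
  rw [List.reverse_reverse]

theorem eq1_rev_bl (a : M) (u : List M) : bl a u.reverse = (af a u).reverse := by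
  unfold bl
  rw [List.reverse_reverse]

theorem eq1_rev_al (a : M) (u : List M) : al a u.reverse = (bf a u).reverse := by
  unfold al
  rw [List.reverse_reverse]

theorem eq1_base {k n : ℕ} {u v : List M} (h : Sim k n u v) :
    ∀ a, (a ∈ u ↔ a ∈ v) ∧ u.count a ≡ v.count a [MOD k] := by
  cases n with
  | zero => exact h
  | succ n => exact h.1

theorem eq1_base_rev {k : ℕ} {u v : List M}
    (h : ∀ a, (a ∈ u ↔ a ∈ v) ∧ u.count a ≡ v.count a [MOD k]) :
    ∀ a, (a ∈ u.reverse ↔ a ∈ v.reverse) ∧ u.reverse.count a ≡ v.reverse.count a [MOD k] := by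
  intro a
  rw [List.mem_reverse, List.mem_reverse, List.count_reverse, List.count_reverse]
  exact h a

/-- Symmetry under reversal. -/
theorem sim_rev {M : Type} [DecidableEq M] {k : ℕ} : ∀ (n : ℕ) (u v : List M),
    Sim k n u v → Sim k n u.reverse v.reverse
  | 0, _, _, h => eq1_base_rev h
  | n + 1, u, v, h => by
    refine ⟨eq1_base_rev h.1, fun a => ?_⟩
    obtain ⟨h1, h2, h3, h4⟩ := h.2 a
    rw [eq1_rev_bf, eq1_rev_bf, eq1_rev_af, eq1_rev_af, eq1_rev_bl, eq1_rev_bl, eq1_rev_al,
      eq1_rev_al]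
    exact ⟨sim_rev n _ _ h4, sim_rev n _ _ h3, sim_rev n _ _ h2, sim_rev n _ _ h1⟩

theorem eq1_succ {k : ℕ} : ∀ (n : ℕ) (u v : List M), Sim k (n + 1) u v → Sim k n u v
  | 0, _, _, h => h.1
  | n + 1, _, _, h => ⟨h.1, fun a => ⟨eq1_succ n _ _ (h.2 a).1, eq1_succ n _ _ (h.2 a).2.1,
      eq1_succ n _ _ (h.2 a).2.2.1, eq1_succ n _ _ (h.2 a).2.2.2⟩⟩

theorem sim_mono {M : Type} [DecidableEq M] {k n n' : ℕ} (hn : n' ≤ n) {u v : List M}
    (h : Sim k n u v) : Sim k n' u v := by
  induction n, hn using Nat.le_induction with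
  | base => exact h
  | succ n _ ih => exact ih (eq1_succ n u v h)

theorem eq1_refl {k : ℕ} : ∀ (n : ℕ) (u : List M), Sim k n u u
  | 0, _ => fun _ => ⟨Iff.rfl, Nat.ModEq.refl _⟩
  | n + 1, _ => ⟨fun _ => ⟨Iff.rfl, Nat.ModEq.refl _⟩,
      fun _ => ⟨eq1_refl n _, eq1_refl n _, eq1_refl n _, eq1_refl n _⟩⟩

theorem eq1_bf_none {a : M} {u : List M} (h : a ∉ u) : bf a u = u := by
  unfold bf
  rw [List.takeWhile_eq_self_iff]
  intro b hb
  have : b ≠ a := fun h' => h (h' ▸ hb)
  simpa using this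

theorem eq1_af_none {a : M} {u : List M} (h : a ∉ u) : af a u = [] := by
  unfold af
  have : u.dropWhile (· ≠ a) = [] := by
    rw [List.dropWhile_eq_nil_iff]
    intro b hb
    have : b ≠ a := fun h' => h (h' ▸ hb)
    simpa using this
  rw [this]
  rfl

theorem eq1_al_none {a : M} {u : List M} (h : a ∉ u) : al a u = u := by
  unfold al
  rw [eq1_bf_none (by rwa [List.mem_reverse]), List.reverse_reverse]

theorem eq1_bl_none {a : M} {u : List M} (h : a ∉ u) : bl a u = [] := by
  unfold bl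
  rw [eq1_af_none (by rwa [List.mem_reverse])]
  rfl

end eq1

section eq1map

variable {M M' : Type} [DecidableEq M] [DecidableEq M'] {f : M → M'}

theorem eq1_bf_map (hf : Function.Injective f) (a : M) (u : List M) :
    bf (f a) (u.map f) = (bf a u).map f := by
  unfold bf
  rw [List.takeWhile_map]
  congr 1
  congr 1
  funext b
  simp [hf.eq_iff]

theorem eq1_af_map (hf : Function.Injective f) (a : M) (u : List M) :
    af (f a) (u.map f) = (af a u).map f := by
  unfold af
  rw [List.dropWhile_map, List.map_tail]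
  congr 3
  funext b
  simp [hf.eq_iff]

theorem eq1_bl_map (hf : Function.Injective f) (a : M) (u : List M) :
    bl (f a) (u.map f) = (bl a u).map f := by
  unfold bl
  rw [← List.map_reverse, eq1_af_map hf, ← List.map_reverse]

theorem eq1_al_map (hf : Function.Injective f) (a : M) (u : List M) :
    al (f a) (u.map f) = (al a u).map f := by
  unfold al
  rw [← List.map_reverse, eq1_bf_map hf, ← List.map_reverse]

theorem eq1_base_map {k : ℕ} (hf : Function.Injective f) {u v : List M}
    (h : ∀ a, (a ∈ u ↔ a ∈ v) ∧ u.count a ≡ v.count a [MOD k]) :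
    ∀ a, (a ∈ u.map f ↔ a ∈ v.map f) ∧ (u.map f).count a ≡ (v.map f).count a [MOD k] := by
  intro a
  by_cases ha : ∃ b, f b = a
  · obtain ⟨b, rfl⟩ := ha
    rw [List.mem_map_of_injective hf, List.mem_map_of_injective hf,
      List.count_map_of_injective _ _ hf, List.count_map_of_injective _ _ hf]
    exact h b
  · have h1 : ∀ w : List M, a ∉ w.map f := by
      intro w hw
      obtain ⟨b, _, hb⟩ := List.mem_map.1 hw
      exact ha ⟨b, hb⟩
    rw [List.count_eq_zero_of_not_mem (h1 u), List.count_eq_zero_of_not_mem (h1 v)]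
    exact ⟨⟨fun h' => absurd h' (h1 u), fun h' => absurd h' (h1 v)⟩, Nat.ModEq.refl _⟩

end eq1map

/-- Injective maps of the letters. -/
theorem sim_map {M M' : Type} [DecidableEq M] [DecidableEq M'] {k : ℕ} (f : M → M')
    (hf : Function.Injective f) : ∀ (n : ℕ) (u v : List M), Sim k n u v →
      Sim k n (u.map f) (v.map f)
  | 0, _, _, h => eq1_base_map hf h
  | n + 1, u, v, h => by
    refine ⟨eq1_base_map hf h.1, fun a => ?_⟩
    by_cases ha : ∃ b, f b = a
    · obtain ⟨b, rfl⟩ := ha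
      rw [eq1_bf_map hf, eq1_bf_map hf, eq1_af_map hf, eq1_af_map hf, eq1_bl_map hf,
        eq1_bl_map hf, eq1_al_map hf, eq1_al_map hf]
      obtain ⟨h1, h2, h3, h4⟩ := h.2 b
      exact ⟨sim_map f hf n _ _ h1, sim_map f hf n _ _ h2, sim_map f hf n _ _ h3,
        sim_map f hf n _ _ h4⟩
    · have h1 : ∀ w : List M, a ∉ w.map f := by
        intro w hw
        obtain ⟨b, _, hb⟩ := List.mem_map.1 hw
        exact ha ⟨b, hb⟩
      rw [eq1_bf_none (h1 u), eq1_bf_none (h1 v), eq1_af_none (h1 u), eq1_af_none (h1 v),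
        eq1_bl_none (h1 u), eq1_bl_none (h1 v), eq1_al_none (h1 u), eq1_al_none (h1 v)]
      have h2 := sim_map f hf n u v (eq1_succ n u v h)
      exact ⟨h2, eq1_refl n _, eq1_refl n _, h2⟩

end Pool.Agent.MP_ca1109_lc.Ovm
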