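import Pool.Agent.MP_ca1109_lc.Ovm.AL
import Pool.Agent.MP_ca1109_lc.Ovm.EQ1

/-!
# The chain of right ideals
-/

namespace Pool.Agent.MP_ca1109_lc.Ovm

open Finset

/-- Splitting a word at its first `a`. -/
theorem eq2_split {M : Type} [DecidableEq M] {a : M} : ∀ {u : List M}, a ∈ u →
    u = bf a u ++ a :: af a u := by
  intro u
  induction u with
  | nil => intro h; simp at h
  | cons b w ih =>
    intro h
    by_cases hb : b = a
    · subst hb
      simp [bf, af]
    · have hw : a ∈ w := by
        rcases List.mem_cons.1 h with h | h
        · exact absurd h.symm hb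
        · exact h
      have h1 : bf a (b :: w) = b :: bf a w := by
        simp [bf, hb]
      have h2 : af a (b :: w) = af a w := by
        simp [af, hb]
      rw [h1, h2, List.cons_append, ← ih hw]

theorem eq2_bf_mem {M : Type} [DecidableEq M] {a b : M} {u : List M} (h : b ∈ bf a u) :
    b ∈ u ∧ b ≠ a := by
  refine ⟨(List.takeWhile_sublist _).subset h, ?_⟩
  have := List.mem_takeWhile_imp h
  simpa using this

theorem eq2_af_mem {M : Type} [DecidableEq M] {a b : M} {u : List M} (h : b ∈ af a u) : b ∈ u :=
  (List.dropWhile_sublist _).subset (List.mem_of_mem_tail h)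

/-- Some letter of `u` does not have the property `P`: there is a first such letter `a`, all letters
before it have the property. -/
theorem eq2_first {M : Type} [DecidableEq M] {P : M → Prop} : ∀ {u : List M},
    (¬ ∀ b ∈ u, P b) → ∃ a ∈ u, ¬ P a ∧ ∀ b ∈ bf a u, P b := by
  classical
  intro u
  induction u with
  | nil => intro h; exact absurd (by simp) h
  | cons b w ih =>
    intro h
    by_cases hb : P b
    · have hw : ¬ ∀ c ∈ w, P c := by
        intro h'
        apply h
        intro c hc
        rcases List.mem_cons.1 hc with rfl | hc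
        · exact hb
        · exact h' c hc
      obtain ⟨a, ha, hPa, hall⟩ := ih hw
      refine ⟨a, List.mem_cons_of_mem _ ha, hPa, ?_⟩
      have hba : b ≠ a := fun e => hPa (e ▸ hb)
      have h1 : bf a (b :: w) = b :: bf a w := by
        simp [bf, hba]
      rw [h1]
      intro c hc
      rcases List.mem_cons.1 hc with rfl | hc
      · exact hb
      · exact hall c hc
    · refine ⟨b, List.mem_cons_self, hb, ?_⟩
      simp [bf]

/-- EQ2: the R-chain. `IH`: words with at most `c` letters. -/
theorem eq_chain {M : Type} [Monoid M] [Fintype M] [DecidableEq M] (h : DOA M) {k c n₀ : ℕ}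
    (IH : ∀ u v : List M, u.toFinset.card ≤ c → Sim k n₀ u v → u.prod = v.prod) :
    ∀ (r : ℕ) (s : M) (u v : List M), (univ.filter fun m => ∃ x, s * x = m).card ≤ r →
      u.toFinset.card ≤ c + 1 → Sim k (n₀ + r) u v →
      ∃ (s' : M) (u' v' : List M), s * u.prod = s' * u'.prod ∧ s * v.prod = s' * v'.prod ∧
        (∀ a, (a ∈ u' ↔ a ∈ v') ∧ u'.count a ≡ v'.count a [MOD k]) ∧
        ∀ b ∈ u', St s' b := by
  intro r
  induction r with
  | zero =>
    intro s u v hr
    exfalso
    have : s ∈ univ.filter fun m => ∃ x, s * x = m := by
      simp only [mem_filter, mem_univ, true_and]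
      exact ⟨1, mul_one s⟩
    have h0 := Finset.card_pos.2 ⟨s, this⟩
    omega
  | succ r ih =>
    intro s u v hr hu hsim
    have hlet : ∀ a, (a ∈ u ↔ a ∈ v) ∧ u.count a ≡ v.count a [MOD k] := by
      have := sim_mono (Nat.zero_le (n₀ + (r + 1))) hsim
      exact this
    by_cases hall : ∀ b ∈ u, St s b
    · exact ⟨s, u, v, rfl, rfl, hlet, hall⟩
    · obtain ⟨a, hau, hna, hbf⟩ := eq2_first hall
      have hav : a ∈ v := (hlet a).1.1 hau
      have hs1 : Sim k (n₀ + r) (bf a u) (bf a v) := (hsim.2 a).1
      have hs2 : Sim k (n₀ + r) (af a u) (af a v) := (hsim.2 a).2.1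
      have hP : (bf a u).prod = (bf a v).prod := by
        apply IH _ _ _ (sim_mono (Nat.le_add_right _ _) hs1)
        have hss : (bf a u).toFinset ⊂ u.toFinset := by
          rw [Finset.ssubset_iff_of_subset]
          · exact ⟨a, List.mem_toFinset.2 hau, fun hh =>
              (eq2_bf_mem (List.mem_toFinset.1 hh)).2 rfl⟩
          · intro b hb
            exact List.mem_toFinset.2 (eq2_bf_mem (List.mem_toFinset.1 hb)).1
        have := Finset.card_lt_card hss
        omega
      -- the new state
      have hstrict : (univ.filter fun m => ∃ x, s * (bf a u).prod * a * x = m).card ≤ r := by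
        have hss : (univ.filter fun m => ∃ x, s * (bf a u).prod * a * x = m) ⊂
            (univ.filter fun m => ∃ x, s * x = m) := by
          rw [Finset.ssubset_iff_of_subset]
          · refine ⟨s, ?_, ?_⟩
            · simp only [mem_filter, mem_univ, true_and]
              exact ⟨1, mul_one s⟩
            · simp only [mem_filter, mem_univ, true_and]
              rintro ⟨x, hx⟩
              apply hna
              exact st_of h (x := (bf a u).prod) (y := 1) (z := x) (by
                rw [mul_one, ← mul_assoc s]; exact hx)
          · intro m hm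
            simp only [mem_filter, mem_univ, true_and] at hm ⊢
            obtain ⟨x, hx⟩ := hm
            exact ⟨(bf a u).prod * a * x, by rw [← hx]; simp only [mul_assoc]⟩
        have := Finset.card_lt_card hss
        omega
      have hafc : (af a u).toFinset.card ≤ c + 1 :=
        le_trans (Finset.card_le_card fun b hb =>
          List.mem_toFinset.2 (eq2_af_mem (List.mem_toFinset.1 hb))) hu
      obtain ⟨s', u', v', e1, e2, e3, e4⟩ :=
        ih (s * (bf a u).prod * a) (af a u) (af a v) hstrict hafc hs2
      refine ⟨s', u', v', ?_, ?_, e3, e4⟩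
      · rw [← e1]
        conv_lhs => rw [eq2_split hau]
        simp only [List.prod_append, List.prod_cons, mul_assoc]
      · rw [← e2]
        conv_lhs => rw [eq2_split hav]
        rw [hP]
        simp only [List.prod_append, List.prod_cons, mul_assoc]

end Pool.Agent.MP_ca1109_lc.Ovm
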