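import Pool.Agent.MP_ca1109_lc.Ovm.EQ1
import Pool.Agent.MP_ca1109_lc.Ovm.AL
import Pool.Agent.MP_ca1109_lc.Ovm.EQ2

/-!
# Similar words have equal products
-/

namespace Pool.Agent.MP_ca1109_lc.Ovm

open Finset

theorem eq3_main (B : ℕ) : ∀ c : ℕ, ∃ n : ℕ, ∀ {M : Type} [Monoid M] [Fintype M] [DecidableEq M],
    Fintype.card M ≤ B → DOA M → ∀ u v : List M, u.toFinset.card ≤ c →
      Sim B.factorial n u v → u.prod = v.prod := by
  intro c
  induction c with
  | zero =>
    refine ⟨0, fun {M} _ _ _ _ _ u v hu hs => ?_⟩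
    have hu0 : u = [] := by
      rw [Nat.le_zero, Finset.card_eq_zero, List.toFinset_eq_empty_iff] at hu
      exact hu
    have hv0 : v = [] := by
      rw [List.eq_nil_iff_forall_not_mem]
      intro a ha
      have h1 := (hs a).1.2 ha
      rw [hu0] at h1
      simp at h1
    rw [hu0, hv0]
  | succ c ih =>
    obtain ⟨n₀, ih⟩ := ih
    refine ⟨n₀ + B, fun {M} _ _ _ hB hM u v hu hs => ?_⟩
    obtain ⟨s, U, V, hX, hY, hb, hst⟩ := eq_chain hM (fun u v h1 h2 => ih hB hM u v h1 h2) B 1
      u v ((Finset.card_le_univ _).trans hB) hu hs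
    letI : Fintype Mᵐᵒᵖ := Fintype.ofEquiv M MulOpposite.opEquiv
    have hcard : Fintype.card Mᵐᵒᵖ ≤ B := by
      rw [← Fintype.card_congr (MulOpposite.opEquiv (α := M))]
      exact hB
    have hs' : Sim B.factorial (n₀ + B) (u.reverse.map MulOpposite.op)
        (v.reverse.map MulOpposite.op) :=
      sim_map _ MulOpposite.op_injective _ _ _ (sim_rev _ _ _ hs)
    have hu' : (u.reverse.map MulOpposite.op).toFinset.card ≤ c + 1 := by
      refine le_trans ?_ hu
      have e1 : (u.reverse.map MulOpposite.op).toFinset ⊆ u.toFinset.image MulOpposite.op := by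
        intro x hx
        rw [List.mem_toFinset, List.mem_map] at hx
        obtain ⟨a, ha, rfl⟩ := hx
        exact Finset.mem_image_of_mem _ (List.mem_toFinset.2 (List.mem_reverse.1 ha))
      exact (Finset.card_le_card e1).trans Finset.card_image_le
    obtain ⟨t, W, W', hX', hY', -, hst'⟩ := eq_chain (doa_op hM)
      (fun u v h1 h2 => ih hcard (doa_op hM) u v h1 h2) B 1 _ _
      ((Finset.card_le_univ _).trans hcard) hu' hs'
    obtain ⟨z, hz⟩ := st_prod (doa_op hM) hst'
    rw [one_mul] at hX hY hX' hY'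
    have hop : ∀ w : List M, (w.reverse.map MulOpposite.op).prod = MulOpposite.op w.prod := by
      intro w
      rw [MulOpposite.op_list_prod, List.map_reverse]
    rw [hop] at hX' hY'
    have hw : v.prod = MulOpposite.unop (z * W'.prod) * u.prod := by
      apply MulOpposite.op_injective
      rw [MulOpposite.op_mul, MulOpposite.op_unop, hY', hX', ← mul_assoc, hz]
    have hk : ∀ p, 1 ≤ p → p ≤ Nat.card M → p ∣ B.factorial := by
      intro p h1 h2
      rw [Nat.card_eq_fintype_card] at h2
      exact Nat.dvd_factorial h1 (h2.trans hB)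
    have hfin := al_final hM hk hst (fun a => (hb a).1) (fun a => (hb a).2)
      (w := MulOpposite.unop (z * W'.prod)) (by rw [← hX, ← hY, hw])
    rw [hX, hY, hfin]

/-- EQ3: `n` depends on the number of elements only. -/
theorem sim_prod (B : ℕ) : ∃ n : ℕ, ∀ {M : Type} [Monoid M] [Fintype M] [DecidableEq M],
    Fintype.card M ≤ B → DOA M → ∀ u v : List M, Sim B.factorial n u v →
      u.prod = v.prod := by
  obtain ⟨n, hn⟩ := eq3_main B B
  exact ⟨n, fun hB hM u v hs => hn hB hM u v ((Finset.card_le_univ _).trans hB) hs⟩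

end Pool.Agent.MP_ca1109_lc.Ovm
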