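import Pool.Agent.MP_ca1109_lc.Ovm.FM
import Pool.Agent.MP_ca1109_lc.Ovm.TestL
import Pool.Agent.MP_ca1109_lc.Wd.WF3

/-!
# Several programs of any width in two orders, or search trees: the theorem
-/

namespace Pool.Agent.MP_ca1109_lc.Ovm

open Finset Pool.Agent.MP_ca1109_lc.Mpg Pool.Agent.MP_ca1109_lc.Ov Pool.Agent.MP_ca1109_lc.Ovr

/-- The theorem. -/
theorem lmfinal (c r B k D h : ℕ) {ε : ℝ} (hε : 0 < ε) : LogGen (LMTest c r B k D h) ε := by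
  obtain ⟨B', k₁, D₁, H⟩ := mtree_stree B
  obtain ⟨E, G, hE, hG, hl, C, hC⟩ := Wd.wfinal3 B k c r B' (k * k₁) (k * D₁ + D) h hε
  refine ⟨E, G, hE, hG, hl, C, ?_⟩
  filter_upwards [hC, Filter.eventually_ge_atTop 1] with n hn hn'
  refine ⟨hn.1, hn.2.1, fun T hT => hn.2.2 T ?_⟩
  obtain ⟨N, L, a, g, h1, h2, h3, h4⟩ := hT
  refine ⟨N, L, a, g, by rw [Nat.cast_mul]; exact h1, h2, fun j => ?_, h4⟩
  rcases h3 j with h3 | ⟨q, I, h5, h6, h7⟩
  · exact Or.inr h3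
  · exact Or.inl ⟨q, I, h5, h6, H (Nat.one_le_pow _ _ hn') D _ h7⟩

/-- The tests with two programs. -/
theorem mtest_lmtest {c r B k D h n : ℕ} {T : (Fin n → Bool) → Bool}
    (hT : MTest c r B (k + 1) D h n T) : LMTest c r B (k + 1) D h n T := by
  obtain ⟨N, L, a, g, h1, h2, h3, h4⟩ := hT
  exact ⟨N, L, a, g, h1, h2, fun j => (h3 j).imp_left Wd.ktest_ltest, h4⟩

end Pool.Agent.MP_ca1109_lc.Ovm
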