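import Pool.Agent.MP_ca1109_lc.Ovm.Defs
import Pool.Agent.MP_ca1109_lc.Ovr.NR

/-!
# Functions of the classes of similar words are search trees
-/

namespace Pool.Agent.MP_ca1109_lc.Ovm.SimT

open Finset Pool.Agent.MP_ca1109_lc.Ov Pool.Agent.MP_ca1109_lc.Ovr

/-! ## Words -/

section words

variable {M : Type} [DecidableEq M]

theorem bf_of {a : M} {u v : List M} (h : a ∉ u) : bf a (u ++ a :: v) = u := by
  unfold bf
  rw [List.takeWhile_append_of_pos]
  · simp
  · intro b hb
    exact decide_eq_true fun h' => h (h' ▸ hb)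

theorem af_of {a : M} {u v : List M} (h : a ∉ u) : af a (u ++ a :: v) = v := by
  unfold af
  rw [List.dropWhile_append_of_pos]
  · simp
  · intro b hb
    exact decide_eq_true fun h' => h (h' ▸ hb)

theorem bf_not {a : M} {u : List M} (h : a ∉ u) : bf a u = u := by
  unfold bf
  rw [List.takeWhile_eq_self_iff]
  intro b hb
  exact decide_eq_true fun h' => h (h' ▸ hb)

theorem af_not {a : M} {u : List M} (h : a ∉ u) : af a u = [] := by
  unfold af
  have h1 : u.dropWhile (fun b => decide (b ≠ a)) = [] := by
    rw [List.dropWhile_eq_nil_iff]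
    intro b hb
    exact decide_eq_true fun h' => h (h' ▸ hb)
  rw [h1]
  rfl

theorem bl_of {a : M} {u v : List M} (h : a ∉ v) : bl a (u ++ a :: v) = u := by
  unfold bl
  rw [List.reverse_append, List.reverse_cons, List.append_assoc, List.singleton_append,
    af_of (by rwa [List.mem_reverse]), List.reverse_reverse]

theorem al_of {a : M} {u v : List M} (h : a ∉ v) : al a (u ++ a :: v) = v := by
  unfold al
  rw [List.reverse_append, List.reverse_cons, List.append_assoc, List.singleton_append,
    bf_of (by rwa [List.mem_reverse]), List.reverse_reverse]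

theorem bl_not {a : M} {u : List M} (h : a ∉ u) : bl a u = [] := by
  unfold bl
  rw [af_not (by rwa [List.mem_reverse]), List.reverse_nil]

theorem al_not {a : M} {u : List M} (h : a ∉ u) : al a u = u := by
  unfold al
  rw [bf_not (by rwa [List.mem_reverse]), List.reverse_reverse]

end words

/-! ## Codes -/

/-- The codes of order `n`. -/
def Code (M : Type) (q : ℕ) : ℕ → Type
  | 0 => M → Bool × ZMod q
  | n + 1 => (M → Bool × ZMod q) ×
      (M → (Code M q n × Code M q n) × (Code M q n × Code M q n))

noncomputable instance codeFintype (M : Type) [Fintype M] [DecidableEq M] (q : ℕ) [NeZero q] :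
    ∀ n, Fintype (Code M q n)
  | 0 => inferInstanceAs (Fintype (M → Bool × ZMod q))
  | n + 1 => by
    haveI := codeFintype M q n
    exact inferInstanceAs (Fintype ((M → Bool × ZMod q) ×
      (M → (Code M q n × Code M q n) × (Code M q n × Code M q n))))

/-- The code of a word. -/
def code {M : Type} [DecidableEq M] (q : ℕ) : ∀ n, List M → Code M q n
  | 0 => fun u a => (decide (a ∈ u), (u.count a : ZMod q))
  | n + 1 => fun u => (fun a => (decide (a ∈ u), (u.count a : ZMod q)),
      fun a => ((code q n (bf a u), code q n (af a u)), (code q n (bl a u), code q n (al a u))))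

theorem code_sim {M : Type} [DecidableEq M] (q : ℕ) : ∀ (n : ℕ) (u v : List M),
    code q n u = code q n v → Sim q n u v
  | 0, u, v, h => fun a => by
    have h1 : (decide (a ∈ u), (u.count a : ZMod q)) = (decide (a ∈ v), (v.count a : ZMod q)) :=
      congrFun h a
    rw [Prod.mk.injEq, decide_eq_decide, ZMod.natCast_eq_natCast_iff] at h1
    exact h1
  | n + 1, u, v, h => by
    have h0 : (fun a => (decide (a ∈ u), (u.count a : ZMod q))) =
        fun a => (decide (a ∈ v), (v.count a : ZMod q)) := congrArg Prod.fst h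
    have h0' := congrArg Prod.snd h
    refine ⟨fun a => ?_, fun a => ?_⟩
    · have h1 : (decide (a ∈ u), (u.count a : ZMod q)) = (decide (a ∈ v), (v.count a : ZMod q)) :=
        congrFun h0 a
      rw [Prod.mk.injEq, decide_eq_decide, ZMod.natCast_eq_natCast_iff] at h1
      exact h1
    · have h1 : ((code q n (bf a u), code q n (af a u)), (code q n (bl a u), code q n (al a u))) =
          ((code q n (bf a v), code q n (af a v)), (code q n (bl a v), code q n (al a v))) :=
        congrFun h0' a
      simp only [Prod.mk.injEq] at h1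
      exact ⟨code_sim q n _ _ h1.1.1, code_sim q n _ _ h1.1.2, code_sim q n _ _ h1.2.1,
        code_sim q n _ _ h1.2.2⟩

/-- Bounds of the numbers of codes. -/
def cnum (B q : ℕ) : ℕ → ℕ
  | 0 => (2 * q) ^ B
  | n + 1 => (2 * q) ^ B * ((cnum B q n * cnum B q n) * (cnum B q n * cnum B q n)) ^ B

theorem cnum_pos {B q : ℕ} (hq : 1 ≤ q) : ∀ n, 1 ≤ cnum B q n
  | 0 => Nat.one_le_pow _ _ (by omega)
  | n + 1 => by
    have h := cnum_pos (B := B) hq n
    exact Nat.mul_pos (Nat.one_le_pow _ _ (by omega)) (Nat.one_le_pow _ _ (by positivity))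

theorem card_code (M : Type) [Fintype M] [DecidableEq M] {B q : ℕ} [NeZero q]
    (hM : Fintype.card M ≤ B) : ∀ n, Fintype.card (Code M q n) ≤ cnum B q n
  | 0 => by
    have hq : 1 ≤ q := NeZero.one_le
    have h1 : Fintype.card (Code M q 0) = (2 * q) ^ Fintype.card M := by
      have h2 : Fintype.card (Code M q 0) = Fintype.card (M → Bool × ZMod q) := by
        unfold Code
        exact Fintype.card_congr (Equiv.refl _)
      rw [h2, Fintype.card_fun, Fintype.card_prod, Fintype.card_bool, ZMod.card]
    rw [h1]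
    exact Nat.pow_le_pow_right (by omega) hM
  | n + 1 => by
    have hq : 1 ≤ q := NeZero.one_le
    have h0 := card_code M (B := B) (q := q) hM n
    have h1 : Fintype.card (Code M q (n + 1)) = (2 * q) ^ Fintype.card M *
        ((Fintype.card (Code M q n) * Fintype.card (Code M q n)) *
          (Fintype.card (Code M q n) * Fintype.card (Code M q n))) ^ Fintype.card M := by
      have h2 : Fintype.card (Code M q (n + 1)) = Fintype.card ((M → Bool × ZMod q) ×
          (M → (Code M q n × Code M q n) × (Code M q n × Code M q n))) :=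
        Fintype.card_congr (Equiv.refl _)
      rw [h2, Fintype.card_prod, Fintype.card_fun, Fintype.card_fun, Fintype.card_prod,
        Fintype.card_prod, Fintype.card_prod, Fintype.card_bool, ZMod.card]
    rw [h1]
    have h3 := cnum_pos (B := B) hq n
    refine Nat.mul_le_mul (Nat.pow_le_pow_right (by omega) hM) ?_
    refine (Nat.pow_le_pow_left (Nat.mul_le_mul (Nat.mul_le_mul h0 h0) (Nat.mul_le_mul h0 h0))
      _).trans (Nat.pow_le_pow_right (by positivity) hM)

/-! ## Functions computed by search trees -/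

variable {n q' : ℕ}

/-- All the sets `{c = v}` are search trees. -/
def TM (N B k : ℕ) (I : Fin q' → Finset (Fin n)) (D : ℕ) {V : Type} (c : (Fin n → Bool) → V) :
    Prop :=
  ∀ v T, (∀ x, T x = true ↔ c x = v) → STree N B k I D T

theorem TM.mono {N B k k' D D' : ℕ} {I : Fin q' → Finset (Fin n)} {V : Type}
    {c : (Fin n → Bool) → V} (hN : 1 ≤ N) (hk : k ≤ k') (hD : D ≤ D') (h : TM N B k I D c) :
    TM N B k' I D' c :=
  fun v T hT => nr_depth hN hD (nr_mono le_rfl le_rfl hk _ _ (h v T hT))

/-- Functions of `c`. -/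
theorem TM.fun {N B k D C : ℕ} {I : Fin q' → Finset (Fin n)} {V : Type} [Fintype V]
    {c : (Fin n → Bool) → V} (hN : 1 ≤ N) (hV : Fintype.card V ≤ C) (h : TM N B k I D c)
    (F : V → Bool) : STree N B (C * k) I (C * D) fun x => F (c x) := by
  classical
  obtain ⟨e⟩ := Fintype.truncEquivFin V
  have h1 := stree_many (N := N) (B := B) (k := k) (D := D) (I := I)
    (fun y : Fin (Fintype.card V) → Bool => decide (∃ j, y j = true ∧ F (e.symm j) = true))
    (fun j x => decide (c x = e.symm j)) fun j => h (e.symm j) _ fun x => decide_eq_true_iff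
  have h2 : (fun x => F (c x)) = fun x => decide (∃ j : Fin (Fintype.card V),
      decide (c x = e.symm j) = true ∧ F (e.symm j) = true) := by
    funext x
    rw [Bool.eq_iff_iff, decide_eq_true_iff]
    constructor
    · intro hx
      exact ⟨e (c x), by rw [decide_eq_true_iff, Equiv.symm_apply_apply], by
        rw [Equiv.symm_apply_apply]; exact hx⟩
    · rintro ⟨j, hj1, hj2⟩
      rw [decide_eq_true_iff] at hj1
      rw [hj1]
      exact hj2
  rw [h2]
  exact nr_depth hN (Nat.mul_le_mul_right _ hV) (nr_mono le_rfl le_rfl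
    (Nat.mul_le_mul_right _ hV) _ _ h1)

/-- Pairs. -/
theorem TM.pair {N B k D : ℕ} {I : Fin q' → Finset (Fin n)} {V W : Type}
    {c : (Fin n → Bool) → V} {d : (Fin n → Bool) → W} (h : TM N B k I D c)
    (h' : TM N B k I D d) : TM N B (2 * k) I (2 * D) fun x => (c x, d x) := by
  classical
  intro v T hT
  have h1 := stree_many (N := N) (B := B) (k := k) (D := D) (I := I) (m := 2)
    (fun y => y 0 && y 1) ![fun x => decide (c x = v.1), fun x => decide (d x = v.2)] (fun j => by
      fin_cases j
      · exact h v.1 _ fun x => decide_eq_true_iff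
      · exact h' v.2 _ fun x => decide_eq_true_iff)
  have h2 : T = fun x => (decide (c x = v.1) && decide (d x = v.2)) := by
    funext x
    rw [Bool.eq_iff_iff, Bool.and_eq_true, hT, decide_eq_true_iff, decide_eq_true_iff,
      Prod.ext_iff]
  rw [h2]
  exact h1

/-- Finite families. -/
theorem TM.pi {N B k D C : ℕ} {I : Fin q' → Finset (Fin n)} {M : Type} [Fintype M] {V : Type}
    {c : M → (Fin n → Bool) → V} (hN : 1 ≤ N) (hM : Fintype.card M ≤ C)
    (h : ∀ a, TM N B k I D (c a)) : TM N B (C * k) I (C * D) fun x a => c a x := by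
  classical
  intro v T hT
  obtain ⟨e⟩ := Fintype.truncEquivFin M
  have h1 := stree_many (N := N) (B := B) (k := k) (D := D) (I := I)
    (fun y : Fin (Fintype.card M) → Bool => decide (∀ j, y j = true))
    (fun j x => decide (c (e.symm j) x = v (e.symm j)))
    fun j => h (e.symm j) (v (e.symm j)) _ fun x => decide_eq_true_iff
  have h2 : T = fun x => decide
      (∀ j : Fin (Fintype.card M), decide (c (e.symm j) x = v (e.symm j)) = true) := by
    funext x
    rw [Bool.eq_iff_iff, hT, decide_eq_true_iff, funext_iff]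
    constructor
    · intro hx j
      rw [decide_eq_true_iff]
      exact hx _
    · intro hx a
      have h3 := hx (e a)
      rw [decide_eq_true_iff, Equiv.symm_apply_apply] at h3
      exact h3
  rw [h2]
  exact nr_depth hN (Nat.mul_le_mul_right _ hM) (nr_mono le_rfl le_rfl
    (Nat.mul_le_mul_right _ hM) _ _ h1)

/-! ## Windows -/

section windows

variable {M : Type}

/-- The word between the times `s` and `t`. -/
def wd (π : Equiv.Perm (Fin q')) (a : Fin q' → (Fin n → Bool) → M) (s t : ℕ) (x : Fin n → Bool) :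
    List M :=
  ((List.finRange q').filter fun i : Fin q' => decide (s ≤ (i : ℕ) ∧ (i : ℕ) < t)).map
    fun i => a (π i) x

theorem wd_mem {π : Equiv.Perm (Fin q')} {a : Fin q' → (Fin n → Bool) → M} {s t : ℕ}
    {x : Fin n → Bool} {c : M} : c ∈ wd π a s t x ↔
      ∃ i : Fin q', s ≤ (i : ℕ) ∧ (i : ℕ) < t ∧ a (π i) x = c := by
  unfold wd
  rw [List.mem_map]
  constructor
  · rintro ⟨i, hi, h⟩
    rw [List.mem_filter, decide_eq_true_iff] at hi
    exact ⟨i, hi.2.1, hi.2.2, h⟩
  · rintro ⟨i, h1, h2, h3⟩
    exact ⟨i, by rw [List.mem_filter, decide_eq_true_iff]; exact ⟨List.mem_finRange i, h1, h2⟩, h3⟩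

theorem wd_split (π : Equiv.Perm (Fin q')) (a : Fin q' → (Fin n → Bool) → M) {s t : ℕ}
    (x : Fin n → Bool) {i : Fin q'} (h1 : s ≤ (i : ℕ)) (h2 : (i : ℕ) < t) :
    wd π a s t x = wd π a s i x ++ a (π i) x :: wd π a ((i : ℕ) + 1) t x := by
  have h : List.finRange q' = (List.finRange q').take i ++ i :: (List.finRange q').drop (i + 1) := by
    conv_lhs => rw [← List.take_append_drop (i : ℕ) (List.finRange q')]
    congr 1
    rw [List.drop_eq_getElem_cons (by simp)]
    congr 1
    simp
  have h3 : ∀ j ∈ (List.finRange q').take i, (j : ℕ) < i := by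
    intro j hj
    rw [List.mem_take_iff_getElem] at hj
    obtain ⟨l, hl, rfl⟩ := hj
    simp only [List.getElem_finRange]
    simp only [List.length_finRange, lt_inf_iff] at hl
    simpa using hl.1
  have h4 : ∀ j ∈ (List.finRange q').drop (i + 1), (i : ℕ) < j := by
    intro j hj
    rw [List.mem_drop_iff_getElem] at hj
    obtain ⟨l, hl, rfl⟩ := hj
    simp only [List.getElem_finRange, Fin.val_cast]
    omega
  have e1 : (List.finRange q').filter (fun j : Fin q' => decide (s ≤ (j : ℕ) ∧ (j : ℕ) < t)) =
      (List.finRange q').filter (fun j : Fin q' => decide (s ≤ (j : ℕ) ∧ (j : ℕ) < (i : ℕ))) ++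
        i :: (List.finRange q').filter (fun j : Fin q' => decide ((i : ℕ) + 1 ≤ (j : ℕ) ∧ (j : ℕ) < t)) := by
    rw [h, List.filter_append, List.filter_append, List.filter_append, List.filter_cons_of_pos
      (by rw [decide_eq_true_iff]; exact ⟨h1, h2⟩), List.filter_cons_of_neg
      (by rw [decide_eq_true_iff]; omega), List.filter_cons_of_neg
      (by rw [decide_eq_true_iff]; omega)]
    have e2 : ((List.finRange q').drop (i + 1)).filter
        (fun j : Fin q' => decide (s ≤ (j : ℕ) ∧ (j : ℕ) < (i : ℕ))) = [] := by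
      rw [List.filter_eq_nil_iff]
      intro j hj
      have := h4 j hj
      rw [decide_eq_true_iff]
      omega
    have e3 : ((List.finRange q').take i).filter
        (fun j : Fin q' => decide ((i : ℕ) + 1 ≤ (j : ℕ) ∧ (j : ℕ) < t)) = [] := by
      rw [List.filter_eq_nil_iff]
      intro j hj
      have := h3 j hj
      rw [decide_eq_true_iff]
      omega
    rw [e2, e3, List.append_nil, List.nil_append]
    congr 1
    · refine List.filter_congr fun j hj => ?_
      have := h3 j hj
      rw [decide_eq_decide]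
      omega
    · congr 1
      refine List.filter_congr fun j hj => ?_
      have := h4 j hj
      rw [decide_eq_decide]
      omega
  unfold wd
  rw [e1, List.map_append, List.map_cons]

theorem wd_count [DecidableEq M] (π : Equiv.Perm (Fin q')) (a : Fin q' → (Fin n → Bool) → M) (s t : ℕ)
    (x : Fin n → Bool) (c : M) : (wd π a s t x).count c =
      ∑ j, if s ≤ (π.symm j : ℕ) ∧ (π.symm j : ℕ) < t ∧ a j x = c then 1 else 0 := by
  rw [← Equiv.sum_comp π]
  simp only [Equiv.symm_apply_apply]
  rw [← Finset.card_filter]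
  unfold wd
  rw [List.count, List.countP_map, List.countP_filter, List.countP_eq_length_filter]
  have h : (univ.filter fun i : Fin q' => s ≤ (i : ℕ) ∧ (i : ℕ) < t ∧ a (π i) x = c).card =
      ((List.finRange q').filter fun i : Fin q' => decide
        (s ≤ (i : ℕ) ∧ (i : ℕ) < t ∧ a (π i) x = c)).length := by
    rfl
  rw [h]
  congr 1
  refine List.filter_congr fun i _ => ?_
  rw [Bool.eq_iff_iff]
  simp only [Function.comp_apply, Bool.and_eq_true, beq_iff_eq, decide_eq_true_iff]
  tauto

theorem wd_full (π : Equiv.Perm (Fin q')) (a : Fin q' → (Fin n → Bool) → M) (x : Fin n → Bool) :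
    wd π a 0 q' x = (List.finRange q').map fun i => a (π i) x := by
  unfold wd
  rw [List.filter_eq_self.2 fun i _ => decide_eq_true ⟨Nat.zero_le _, i.2⟩]

variable [DecidableEq M] {N B k D : ℕ} {I : Fin q' → Finset (Fin n)}

theorem tm_const (N B k : ℕ) (I : Fin q' → Finset (Fin n)) (D : ℕ) {V : Type} (v₀ : V)
    (hN : 1 ≤ N) : TM N B k I D fun _ => v₀ := by
  classical
  intro v T hT
  exact nr_depth hN (Nat.zero_le D) ⟨fun _ _ => false, fun _ => decide (v₀ = v),
    fun _ => nr_false B I, fun x => by rw [Bool.eq_iff_iff, hT, decide_eq_true_iff]⟩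

/-- The occurrence and the count of a letter. -/
theorem tm_letter (hB : 1 ≤ B) (r : ℕ) [NeZero r] (π : Equiv.Perm (Fin q'))
    (a : Fin q' → (Fin n → Bool) → M) (ha : OnBlocks I a) (s t : ℕ) (c : M) :
    TM N B 2 I 0 fun x => (decide (c ∈ wd π a s t x), ((wd π a s t x).count c : ZMod r)) := by
  classical
  intro v T hT
  refine ⟨![fun x => decide (c ∈ wd π a s t x),
    fun x => decide (((wd π a s t x).count c : ZMod r) = v.2)],
    fun y => decide (y 0 = v.1) && y 1, fun j => ?_, fun x => ?_⟩
  · fin_cases j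
    · refine Or.inr ⟨fun j x => if s ≤ (π.symm j : ℕ) ∧ (π.symm j : ℕ) < t ∧ a j x = c then 1 else 0,
        1, fun j x y hxy => ?_, fun j x => ?_, fun x => ?_⟩
      · simp only [ha j x y hxy]
      · have h1 : ((1 : ℕ) : ℤ) ≤ B := by exact_mod_cast hB
        rw [Nat.cast_one] at h1
        beta_reduce
        split_ifs
        · simpa using h1
        · simp
      · show decide (c ∈ wd π a s t x) = true ↔ _
        rw [decide_eq_true_iff, ← List.count_pos_iff, wd_count, ← Nat.cast_pos (α := ℤ)]
        push_cast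
        constructor
        · intro h
          exact h
        · intro h
          exact h
    · refine Or.inl (Or.inl ⟨ZMod r, inferInstance, inferInstance,
        fun j x => if s ≤ (π.symm j : ℕ) ∧ (π.symm j : ℕ) < t ∧ a j x = c then 1 else 0,
        {v.2}, by simpa using hB, fun j x y hxy => ?_, fun x => ?_⟩)
      · simp only [ha j x y hxy]
      · show decide (((wd π a s t x).count c : ZMod r) = v.2) = true ↔ _
        rw [decide_eq_true_iff, Finset.mem_singleton, wd_count]
        push_cast
        exact Iff.rfl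
  · show T x = (decide (decide (c ∈ wd π a s t x) = v.1) &&
        decide (((wd π a s t x).count c : ZMod r) = v.2))
    rw [Bool.eq_iff_iff, Bool.and_eq_true, hT, decide_eq_true_iff, decide_eq_true_iff,
      Prod.ext_iff]

/-- The parts before and after the first letter `c`. -/
theorem tm_first (hN : 1 ≤ N) {V : Type} (cd : List M → V) (π : Equiv.Perm (Fin q'))
    (a : Fin q' → (Fin n → Bool) → M) (ha : OnBlocks I a)
    (h : ∀ s t, TM N B k I D fun x => cd (wd π a s t x)) (s t : ℕ) (c : M) :
    TM N B (2 * k) I (2 * D + 1)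
      fun x => (cd (bf c (wd π a s t x)), cd (af c (wd π a s t x))) := by
  classical
  intro v T hT
  refine ⟨0, by simpa using hN, Rf.DTree.leaf ⟨π,
    fun j x => decide (s ≤ (π.symm j : ℕ) ∧ (π.symm j : ℕ) < t ∧ a j x = c),
    fun j _ x => decide ((cd (wd π a s (π.symm j) x), cd (wd π a ((π.symm j : ℕ) + 1) t x)) = v),
    fun x => decide ((cd (wd π a s t x), cd []) = v), ?_, fun j x y _ => rfl,
    TM.pair (h s t) (tm_const N B k I D (cd []) hN) v _ fun x => decide_eq_true_iff,
    fun j w => TM.pair (h s (π.symm j)) (h ((π.symm j : ℕ) + 1) t) v _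
      fun x => decide_eq_true_iff, fun x => ⟨?_, ?_⟩⟩⟩
  · intro j x y hxy
    simp only [ha j x y hxy]
  · intro h0
    have h1 : c ∉ wd π a s t x := by
      rw [wd_mem]
      rintro ⟨i, h1, h2, h3⟩
      have h4 := h0 (π i)
      rw [decide_eq_false_iff_not, Equiv.symm_apply_apply] at h4
      exact h4 ⟨h1, h2, h3⟩
    rw [Bool.eq_iff_iff, hT, decide_eq_true_iff]
    beta_reduce
    rw [bf_not h1, af_not h1]
  · intro i hi hlt
    rw [decide_eq_true_iff, Equiv.symm_apply_apply] at hi
    have h1 : c ∉ wd π a s i x := by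
      rw [wd_mem]
      rintro ⟨i', h1, h2, h3⟩
      have h4 := hlt i' (Fin.lt_def.2 h2)
      rw [decide_eq_false_iff_not, Equiv.symm_apply_apply] at h4
      exact h4 ⟨h1, h2.trans hi.2.1, h3⟩
    have h2 := wd_split π a x hi.1 hi.2.1
    rw [hi.2.2] at h2
    rw [Bool.eq_iff_iff, hT, decide_eq_true_iff]
    beta_reduce
    rw [h2, bf_of h1, af_of h1, Equiv.symm_apply_apply]

/-- The parts before and after the last letter `c`. -/
theorem tm_last (hN : 1 ≤ N) {V : Type} (cd : List M → V) (π : Equiv.Perm (Fin q'))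
    (a : Fin q' → (Fin n → Bool) → M) (ha : OnBlocks I a)
    (h : ∀ s t, TM N B k I D fun x => cd (wd π a s t x)) (s t : ℕ) (c : M) :
    TM N B (2 * k) I (2 * D + 1)
      fun x => (cd (bl c (wd π a s t x)), cd (al c (wd π a s t x))) := by
  classical
  intro v T hT
  refine ⟨0, by simpa using hN, Rf.DTree.leaf ⟨Fin.revPerm.trans π,
    fun j x => decide (s ≤ (π.symm j : ℕ) ∧ (π.symm j : ℕ) < t ∧ a j x = c),
    fun j _ x => decide ((cd (wd π a s (π.symm j) x), cd (wd π a ((π.symm j : ℕ) + 1) t x)) = v),
    fun x => decide ((cd [], cd (wd π a s t x)) = v), ?_, fun j x y _ => rfl,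
    TM.pair (tm_const N B k I D (cd []) hN) (h s t) v _ fun x => decide_eq_true_iff,
    fun j w => TM.pair (h s (π.symm j)) (h ((π.symm j : ℕ) + 1) t) v _
      fun x => decide_eq_true_iff, fun x => ⟨?_, ?_⟩⟩⟩
  · intro j x y hxy
    simp only [ha j x y hxy]
  · intro h0
    have h1 : c ∉ wd π a s t x := by
      rw [wd_mem]
      rintro ⟨i, h1, h2, h3⟩
      have h4 := h0 (π i)
      rw [decide_eq_false_iff_not, Equiv.symm_apply_apply] at h4
      exact h4 ⟨h1, h2, h3⟩
    rw [Bool.eq_iff_iff, hT, decide_eq_true_iff]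
    beta_reduce
    rw [bl_not h1, al_not h1]
  · intro i₀ hi hlt
    obtain ⟨i, hi0⟩ : ∃ i, i = Fin.rev i₀ := ⟨_, rfl⟩
    have h5 : (Fin.revPerm.trans π) i₀ = π i := by
      rw [hi0]
      rfl
    rw [h5] at hi ⊢
    rw [decide_eq_true_iff, Equiv.symm_apply_apply] at hi
    have h1 : c ∉ wd π a ((i : ℕ) + 1) t x := by
      rw [wd_mem]
      rintro ⟨i', h1, h2, h3⟩
      have h6 : Fin.rev i' < i₀ := by
        rw [← Fin.rev_lt_rev, Fin.rev_rev, ← hi0]
        exact Fin.lt_def.2 (by omega)
      have h4 := hlt (Fin.rev i') h6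
      have h7 : (Fin.revPerm.trans π) (Fin.rev i') = π i' := by
        show π (Fin.rev (Fin.rev i')) = π i'
        rw [Fin.rev_rev]
      rw [h7, decide_eq_false_iff_not, Equiv.symm_apply_apply] at h4
      exact h4 ⟨by omega, h2, h3⟩
    have h2 := wd_split π a x hi.1 hi.2.1
    rw [hi.2.2] at h2
    rw [Bool.eq_iff_iff, hT, decide_eq_true_iff]
    beta_reduce
    rw [h2, bl_of h1, al_of h1, Equiv.symm_apply_apply]

end windows

/-! ## The theorem -/

/-- The codes of the words between two times. -/
theorem tm_code (B q : ℕ) [NeZero q] : ∀ r : ℕ, ∃ k D : ℕ, ∀ {N n q' : ℕ}, 1 ≤ N →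
    ∀ (I : Fin q' → Finset (Fin n)) {M : Type} [Fintype M] [DecidableEq M], Fintype.card M ≤ B →
    ∀ (π : Equiv.Perm (Fin q')) (a : Fin q' → (Fin n → Bool) → M), OnBlocks I a →
    ∀ s t, TM N 1 k I D fun x => code q r (wd π a s t x)
  | 0 => by
    refine ⟨B * 2, B * 0, ?_⟩
    intro N n q' hN I M _ _ hM π a ha s t
    exact TM.pi hN hM fun c => tm_letter le_rfl q π a ha s t c
  | r + 1 => by
    obtain ⟨k, D, h⟩ := tm_code B q r
    refine ⟨2 * (B * 2 + B * (2 * (2 * k))), 2 * (B * (2 * (2 * D + 1))), ?_⟩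
    intro N n q' hN I M _ _ hM π a ha s t
    refine TM.pair (TM.mono hN (Nat.le_add_right _ _) (by simp)
      (TM.pi hN hM fun c => tm_letter le_rfl q π a ha s t c))
      (TM.mono hN (Nat.le_add_left _ _) le_rfl (TM.pi hN hM fun c => TM.pair
        (tm_first hN (code q r) π a ha (h hN I hM π a ha) s t c)
        (tm_last hN (code q r) π a ha (h hN I hM π a ha) s t c)))

end SimT

open SimT Pool.Agent.MP_ca1109_lc.Ov Pool.Agent.MP_ca1109_lc.Ovr in
/-- Functions of the classes of similar words are search trees. -/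
theorem sim_tree (B q n : ℕ) (hq : 1 ≤ q) : ∃ B' k D : ℕ, ∀ {N n' q' : ℕ}, 1 ≤ N →
    ∀ (I : Fin q' → Finset (Fin n')) {M : Type} [Fintype M] [DecidableEq M], Fintype.card M ≤ B →
    ∀ (π : Equiv.Perm (Fin q')) (a : Fin q' → (Fin n' → Bool) → M), OnBlocks I a →
    ∀ T, (∀ x y, Sim q n ((List.finRange q').map fun i => a (π i) x)
      ((List.finRange q').map fun i => a (π i) y) → T x = T y) → STree N B' k I D T := by
  have : NeZero q := ⟨by omega⟩
  obtain ⟨k, D, h⟩ := tm_code B q n
  refine ⟨1, cnum B q n * k, cnum B q n * D, ?_⟩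
  intro N n' q' hN I M _ _ hM π a ha T hT
  classical
  have h1 := TM.fun hN (card_code M hM n) (h hN I hM π a ha 0 q')
    (fun v => if h : ∃ x, code q n (wd π a 0 q' x) = v then T h.choose else false)
  have h2 : T = fun x => (fun v => if h : ∃ x, code q n (wd π a 0 q' x) = v then T h.choose
      else false) (code q n (wd π a 0 q' x)) := by
    funext x
    have h3 : ∃ y, code q n (wd π a 0 q' y) = code q n (wd π a 0 q' x) := ⟨x, rfl⟩
    simp only [dif_pos h3]
    refine hT _ _ ?_
    rw [← wd_full, ← wd_full]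
    exact code_sim q n _ _ h3.choose_spec.symm
  rw [h2]
  exact h1

end Pool.Agent.MP_ca1109_lc.Ovm
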