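import Pool.Agent.MP_ca1109_lc.Ovm.Defs

/-!
# Programs are products
-/

namespace Pool.Agent.MP_ca1109_lc.Ovm

open Finset Pool.Agent.MP_ca1109_lc.Ov Pool.Agent.MP_ca1109_lc.Ovr

variable {Q : Type}

/-- Constant maps and maps which commute. -/
theorem t3_comm (S : Submonoid (Function.End Q))
    (hS : ∀ f ∈ S, ∀ g ∈ S, Rf.Const f ∨ Rf.Const g ∨ ∀ s, f (g s) = g (f s)) : DOA S := by
  rintro ⟨e, heS⟩ ⟨b, hbS⟩ ⟨c, hcS⟩ he ⟨x, y, hb⟩ ⟨z, w, hc⟩
  have he1 : ∀ s, e (e s) = e s := fun s => congrFun (congrArg Subtype.val he) s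
  have hb1 : ∀ s, x.1 (b (y.1 s)) = e s := fun s => congrFun (congrArg Subtype.val hb) s
  have hc1 : ∀ s, z.1 (c (w.1 s)) = e s := fun s => congrFun (congrArg Subtype.val hc) s
  by_cases hce : Rf.Const e
  · obtain ⟨k, hk⟩ := hce
    constructor
    · apply Subtype.ext
      funext s
      show e (b (c (e s))) = e (b (e (c (e s))))
      rw [hk, hk]
    · apply Subtype.ext
      funext s
      show e (b (c (e s))) = e (c (b (e s)))
      rw [hk, hk]
  · have hbn : ¬ Rf.Const b := by
      rintro ⟨k, hk⟩
      exact hce ⟨x.1 k, fun s => by rw [← hb1, hk]⟩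
    have hcn : ¬ Rf.Const c := by
      rintro ⟨k, hk⟩
      exact hce ⟨z.1 k, fun s => by rw [← hc1, hk]⟩
    have h1 : ∀ s, e (b s) = b (e s) := by
      rcases hS e heS b hbS with h | h | h
      · exact absurd h hce
      · exact absurd h hbn
      · exact h
    have h2 : ∀ s, e (c s) = c (e s) := by
      rcases hS e heS c hcS with h | h | h
      · exact absurd h hce
      · exact absurd h hcn
      · exact h
    have h3 : ∀ s, b (c s) = c (b s) := by
      rcases hS b hbS c hcS with h | h | h
      · exact absurd h hbn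
      · exact absurd h hcn
      · exact h
    constructor
    · apply Subtype.ext
      funext s
      show e (b (c (e s))) = e (b (e (c (e s))))
      rw [h2, he1]
    · apply Subtype.ext
      funext s
      show e (b (c (e s))) = e (c (b (e s)))
      rw [h3]

/-- Maps which raise the rank of every state which they change. -/
theorem t3_rank (S : Submonoid (Function.End Q)) (ρ : Q → ℕ)
    (hS : ∀ f ∈ S, ∀ s, f s = s ∨ ρ s < ρ (f s)) : DOA S := by
  have key : ∀ e ∈ S, ∀ b ∈ S, (∀ s, e (e s) = e s) → (∃ x y : S, ∀ s, x.1 (b (y.1 s)) = e s) →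
      ∀ s, b (e s) = e s := by
    rintro e _ b hb he ⟨x, y, h⟩ s
    have h1 := h (e s)
    rw [he] at h1
    have le : ∀ f ∈ S, ∀ t, ρ t ≤ ρ (f t) := fun f hf t => by
      rcases hS f hf t with h | h
      · rw [h]
      · exact h.le
    have h2 := le y.1 y.2 (e s)
    have h3 := le b hb (y.1 (e s))
    have h4 := le x.1 x.2 (b (y.1 (e s)))
    rw [h1] at h4
    have h5 : y.1 (e s) = e s := by
      rcases hS y.1 y.2 (e s) with h | h
      · exact h
      · omega
    rw [h5] at h3 h4
    rcases hS b hb (e s) with h | h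
    · exact h
    · omega
  rintro ⟨e, heS⟩ ⟨b, hbS⟩ ⟨c, hcS⟩ he ⟨x, y, hb⟩ ⟨z, w, hc⟩
  have he1 : ∀ s, e (e s) = e s := fun s => congrFun (congrArg Subtype.val he) s
  have hb1 := key e heS b hbS he1 ⟨x, y, fun s => congrFun (congrArg Subtype.val hb) s⟩
  have hc1 := key e heS c hcS he1 ⟨z, w, fun s => congrFun (congrArg Subtype.val hc) s⟩
  constructor
  · apply Subtype.ext
    funext s
    show e (b (c (e s))) = e (b (e (c (e s))))
    rw [hc1, he1]
  · apply Subtype.ext
    funext s
    show e (b (c (e s))) = e (c (b (e s)))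
    rw [hc1, hb1, hc1]

/-- A monoid for the transitions. -/
theorem t3_mon {T : Set (Function.End Q)}
    (hc : (∀ f ∈ T, ∀ g ∈ T, Rf.Const f ∨ Rf.Const g ∨ ∀ s, f (g s) = g (f s)) ∨
      ∃ ρ : Q → ℕ, ∀ f ∈ T, ∀ s, f s = s ∨ ρ s < ρ (f s)) :
    ∃ S : Submonoid (Function.End Q), T ⊆ S ∧ DOA S := by
  rcases hc with hc | ⟨ρ, hρ⟩
  · let U : Set (Function.End Q) := {f | f ∈ T ∧ ¬ Rf.Const f}
    let Z : Set (Function.End Q) := {g | ∀ f ∈ U, ∀ s, f (g s) = g (f s)}
    let C : Set (Function.End Q) := {f | ∀ g ∈ Z, ∀ s, f (g s) = g (f s)}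
    have hUZ : ∀ f ∈ U, f ∈ Z := by
      intro f hf g hg
      rcases hc g hg.1 f hf.1 with h | h | h
      · exact absurd h hg.2
      · exact absurd h hf.2
      · exact h
    have hCZ : ∀ f ∈ C, f ∈ Z := by
      intro f hf g hg s
      exact (hf g (hUZ g hg) s).symm
    refine ⟨{ carrier := {f | Rf.Const f ∨ f ∈ C}
              one_mem' := Or.inr fun g _ s => rfl
              mul_mem' := ?_ }, ?_, t3_comm _ ?_⟩
    · rintro f g hf hg
      rcases hf with ⟨k, hk⟩ | hf
      · exact Or.inl ⟨k, fun s => hk (g s)⟩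
      · rcases hg with ⟨k, hk⟩ | hg
        · refine Or.inl ⟨f k, fun s => ?_⟩
          show f (g s) = f k
          rw [hk]
        · refine Or.inr fun h hh s => ?_
          show f (g (h s)) = h (f (g s))
          rw [hg h hh, hf h hh]
    · intro f hf
      by_cases h : Rf.Const f
      · exact Or.inl h
      · exact Or.inr fun g hg s => hg f ⟨hf, h⟩ s
    · rintro f (hf | hf) g (hg | hg)
      · exact Or.inl hf
      · exact Or.inl hf
      · exact Or.inr (Or.inl hg)
      · exact Or.inr (Or.inr fun s => hf g (hCZ g hg) s)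
  · refine ⟨{ carrier := {f | ∀ s, f s = s ∨ ρ s < ρ (f s)}
              one_mem' := fun s => Or.inl rfl
              mul_mem' := ?_ }, fun f hf => hρ f hf, t3_rank _ ρ fun f hf => hf⟩
    intro f g hf hg s
    show f (g s) = s ∨ ρ s < ρ (f (g s))
    rcases hg s with h | h
    · rw [h]
      exact hf s
    · rcases hf (g s) with h' | h'
      · rw [h']
        exact Or.inr h
      · exact Or.inr (h.trans h')

theorem t3_foldl {ι : Type} (f : ι → Function.End Q) : ∀ (l : List ι) (s : Q),
    l.foldl (fun s i => f i s) s = ((l.reverse.map f).prod : Function.End Q) s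
  | [], _ => rfl
  | i :: l, s => by
    rw [List.foldl_cons, t3_foldl f l, List.reverse_cons, List.map_append, List.prod_append]
    simp only [List.map_cons, List.map_nil, List.prod_cons, List.prod_nil, mul_one]
    rfl

/-- Programs are products. -/
theorem t3_prod {n q : ℕ} {S : Submonoid (Function.End Q)} (π : Equiv.Perm (Fin q))
    {τ : Fin q → (Fin n → Bool) → Q → Q} {a : Fin q → (Fin n → Bool) → S}
    (ha : ∀ j x, ((a j x : S) : Function.End Q) = τ j x) (s : Q) (x : Fin n → Bool) :
    run π τ s x = ((((List.finRange q).map fun i =>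
        a ((Fin.revPerm.trans π) i) x).prod : S) : Function.End Q) s := by
  have h : run π τ s x =
      (List.finRange q).foldl (fun s i => ((a (π i) x : S) : Function.End Q) s) s := by
    unfold run
    congr 1
    funext s i
    exact (congrFun (ha (π i) x) s).symm
  rw [h, t3_foldl (fun i => ((a (π i) x : S) : Function.End Q)), Submonoid.coe_list_prod,
    List.finRange_reverse, List.map_map, List.map_map]
  rfl

/-- For two states there is no condition. -/
theorem two_states (f g : Bool → Bool) : Rf.Const f ∨ Rf.Const g ∨ ∀ s, f (g s) = g (f s) := by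
  have h : ∀ f : Bool → Bool, Rf.Const f ∨ (∀ s, f s = s) ∨ ∀ s, f s = !s := by
    intro f
    rcases h0 : f false with _ | _ <;> rcases h1 : f true with _ | _
    · exact Or.inl ⟨false, fun s => by cases s <;> assumption⟩
    · exact Or.inr (Or.inl fun s => by cases s <;> assumption)
    · exact Or.inr (Or.inr fun s => by cases s <;> assumption)
    · exact Or.inl ⟨true, fun s => by cases s <;> assumption⟩
  rcases h f with hf | hf | hf
  · exact Or.inl hf
  · rcases h g with hg | hg | hg
    · exact Or.inr (Or.inl hg)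
    · exact Or.inr (Or.inr fun s => by rw [hf, hf])
    · exact Or.inr (Or.inr fun s => by rw [hf, hf])
  · rcases h g with hg | hg | hg
    · exact Or.inr (Or.inl hg)
    · exact Or.inr (Or.inr fun s => by rw [hg, hg])
    · exact Or.inr (Or.inr fun s => by rw [hf, hg, hg, hf])

end Pool.Agent.MP_ca1109_lc.Ovm
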