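import Pool.Agent.MP_ca1109_lc.Ovm.EQ3
import Pool.Agent.MP_ca1109_lc.Ovm.ST
import Pool.Agent.MP_ca1109_lc.Ovm.T3
import Pool.Agent.MP_ca1109_lc.Ovm.TestM
import Pool.Agent.MP_ca1109_lc.Ovr.AG
import Pool.Agent.MP_ca1109_lc.Ovr.AW
import Pool.Agent.MP_ca1109_lc.Wd.WF2

/-!
# Programs over monoids over overlapping blocks: the theorem
-/

namespace Pool.Agent.MP_ca1109_lc.Ovm

open Finset Pool.Agent.MP_ca1109_lc.Mpg Pool.Agent.MP_ca1109_lc.Ov Pool.Agent.MP_ca1109_lc.Ovr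

/-- Products are search trees; the constants depend on `B` only. -/
theorem mon_tree (B : ℕ) : ∃ B' k D : ℕ, ∀ {N n q : ℕ}, 1 ≤ N → ∀ {I : Fin q → Finset (Fin n)}
    {M : Type} [Monoid M] [Fintype M], Fintype.card M ≤ B → DOA M →
    ∀ (π : Equiv.Perm (Fin q)) (a : Fin q → (Fin n → Bool) → M) (A : Set M), OnBlocks I a →
    ∀ {g : (Fin n → Bool) → Bool},
      (∀ x, g x = true ↔ ((List.finRange q).map fun i => a (π i) x).prod ∈ A) →
      STree N B' k I D g := by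
  classical
  obtain ⟨m, hm⟩ := sim_prod B
  obtain ⟨B', k, D, H⟩ := sim_tree B B.factorial m (Nat.factorial_pos B)
  refine ⟨B', k, D, fun {N n q} hN {I M} _ _ hM hA π a A ha g hg => ?_⟩
  refine H hN I hM π a ha g fun x y hxy => ?_
  have h1 := hm hM hA _ _ hxy
  rw [Bool.eq_iff_iff, hg x, hg y, h1]

/-- Programs are search trees; the constants depend on `B` only. -/
theorem prog_mtree (B : ℕ) : ∃ B' k D : ℕ, ∀ {N n q : ℕ}, 1 ≤ N → ∀ {I : Fin q → Finset (Fin n)}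
    {Q : Type} [Fintype Q] (S : Submonoid (Function.End Q)) (π : Equiv.Perm (Fin q))
    (τ : Fin q → (Fin n → Bool) → Q → Q) (s : Q) (A : Set Q), Fintype.card Q ≤ B → DOA S →
    OnBlocks I τ → (∀ j x, (τ j x : Function.End Q) ∈ S) →
    ∀ {g : (Fin n → Bool) → Bool}, (∀ x, g x = true ↔ run π τ s x ∈ A) → STree N B' k I D g := by
  classical
  obtain ⟨B', k, D, H⟩ := mon_tree (B ^ B)
  refine ⟨B', k, D, fun {N n q} hN {I Q} _ S π τ s A hQ hS hτ hm {g} hg => ?_⟩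
  obtain ⟨a, ha⟩ : ∃ a : Fin q → (Fin n → Bool) → S, ∀ j x, ((a j x : S) : Function.End Q) = τ j x :=
    ⟨fun j x => ⟨τ j x, hm j x⟩, fun j x => rfl⟩
  have hf : Finite (Function.End Q) := inferInstanceAs (Finite (Q → Q))
  have : Fintype S := Fintype.ofFinite S
  have h1 : 1 ≤ Fintype.card Q := Fintype.card_pos_iff.2 ⟨s⟩
  have h2 : Fintype.card S ≤ B ^ B := by
    rw [← Nat.card_eq_fintype_card]
    refine (Nat.card_le_card_of_injective (Subtype.val : S → Function.End Q)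
      Subtype.val_injective).trans ?_
    have h3 : Nat.card (Function.End Q) = Fintype.card Q ^ Fintype.card Q := by
      show Nat.card (Q → Q) = _
      rw [Nat.card_eq_fintype_card, Fintype.card_fun]
    rw [h3]
    exact (Nat.pow_le_pow_left hQ _).trans (Nat.pow_le_pow_right (h1.trans hQ) hQ)
  refine H hN h2 hS (Fin.revPerm.trans π) a {m | (m : Function.End Q) s ∈ A} ?_ fun x => ?_
  · intro j x y hxy
    apply Subtype.ext
    rw [ha, ha]
    exact hτ j x y hxy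
  · rw [hg, t3_prod π ha]
    rfl

/-- Gates are search trees. -/
theorem mgate_tree (B : ℕ) : ∃ B' k D : ℕ, ∀ {N n q : ℕ}, 1 ≤ N → ∀ {I : Fin q → Finset (Fin n)}
    {g : (Fin n → Bool) → Bool}, MGate B I g → STree N B' k I D g := by
  obtain ⟨B', k, D, H⟩ := prog_mtree B
  refine ⟨max B B', max 1 k, D, fun {N n q} hN {I g} hg => ?_⟩
  have ht : TGate B I g → STree N (max B B') (max 1 k) I D g := fun h => by
    have h1 : STree N B 1 I 0 g := ⟨fun _ => g, fun y => y 0, fun _ => h, fun _ => rfl⟩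
    exact nr_depth hN (Nat.zero_le D) (nr_mono le_rfl (le_max_left _ _) (le_max_left _ _) 0 _ h1)
  rcases hg with ⟨Q, i1, S, π, τ, s, A, h1, h2, h3, h4, h5⟩ | ⟨G, i1, a, A, h1, h2, h3⟩ |
    ⟨w, θ, h1, h2, h3⟩
  · exact nr_mono le_rfl (le_max_right _ _) (le_max_right _ _) D _ (H hN S π τ s A h1 h2 h3 h4 h5)
  · exact ht (agate_tgate h1 h2 h3)
  · exact ht (Or.inr ⟨w, θ, h1, h2, h3⟩)

/-- Search trees over gates with programs are search trees. -/
theorem mtree_stree (B : ℕ) : ∃ B' k₁ D₁ : ℕ, ∀ {N k n q : ℕ}, 1 ≤ N →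
    ∀ {I : Fin q → Finset (Fin n)} (D : ℕ) (T : (Fin n → Bool) → Bool), MTree N B k I D T →
      STree N B' (k * k₁) I (k * D₁ + D) T := by
  obtain ⟨B', k₁, D₁, H⟩ := mgate_tree B
  refine ⟨B', k₁, D₁, fun {N k n q} hN {I} D => ?_⟩
  induction D with
  | zero =>
    rintro T ⟨g, F, hg, hT⟩
    have h1 := stree_many F g fun j => H hN (hg j)
    have h2 : T = fun x => F fun j => g j x := funext hT
    rw [h2]
    exact h1
  | succ D ih =>
    rintro T ⟨d, hd, hT⟩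
    exact ⟨d, hd, nr_dmono (fun _ hU => nr_smono ih hU) hT⟩

/-- The theorem. -/
theorem mfinal (c r B k D h : ℕ) {ε : ℝ} (hε : 0 < ε) : LogGen (MTest c r B k D h) ε := by
  obtain ⟨B', k₁, D₁, H⟩ := mtree_stree B
  obtain ⟨E, G, hE, hG, hl, C, hC⟩ := Wd.wfinal B c r B' (k * k₁) (k * D₁ + D) h hε
  refine ⟨E, G, hE, hG, hl, C, ?_⟩
  filter_upwards [hC, Filter.eventually_ge_atTop 1] with n hn hn'
  refine ⟨hn.1, hn.2.1, fun T hT => hn.2.2 T ?_⟩
  obtain ⟨N, L, a, g, h1, h2, h3, h4⟩ := hT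
  refine ⟨N, L, a, g, by rw [Nat.cast_mul]; exact h1, h2, fun j => ?_, h4⟩
  rcases h3 j with h3 | ⟨q, I, h5, h6, h7⟩
  · exact Or.inr h3
  · exact Or.inl ⟨q, I, h5, h6, H (Nat.one_le_pow _ _ hn') D _ h7⟩

end Pool.Agent.MP_ca1109_lc.Ovm
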