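import Pool.Agent.MP_ca1109_lc.Ovm.T3
import Pool.Agent.MP_ca1109_lc.Ovm.TestM

/-!
# Products are programs
-/

namespace Pool.Agent.MP_ca1109_lc.Ovm

open Finset Pool.Agent.MP_ca1109_lc.Ov Pool.Agent.MP_ca1109_lc.Ovr

/-- For two states there is no condition. -/
theorem doa_two : DOA (⊤ : Submonoid (Function.End Bool)) :=
  t3_comm _ fun f _ g _ => two_states f g

/-- Products are programs. -/
theorem pb_prod {n q : ℕ} {M : Type} [Monoid M] (π : Equiv.Perm (Fin q))
    (a : Fin q → (Fin n → Bool) → M) (x : Fin n → Bool) :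
    run π (fun j x s => s * a j x) 1 x = ((List.finRange q).map fun i => a (π i) x).prod := by
  unfold run
  rw [List.prod_eq_foldl, List.foldl_map]

/-- The multiplications by the elements of `M`. -/
def mulMon (M : Type) [Monoid M] : Submonoid (Function.End M) where
  carrier := {f | ∃ a : M, ∀ s, f s = s * a}
  one_mem' := ⟨1, fun s => (mul_one s).symm⟩
  mul_mem' := by
    rintro f g ⟨a, ha⟩ ⟨b, hb⟩
    refine ⟨b * a, fun s => ?_⟩
    show f (g s) = s * (b * a)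
    rw [ha, hb, mul_assoc]

theorem doa_mul {M : Type} [Monoid M] (h : DOA M) : DOA (mulMon M) := by
  have h1 : ∀ f : mulMon M, ∀ s, f.1 s = s * f.1 1 := by
    rintro ⟨f, a, ha⟩ s
    show f s = s * f 1
    rw [ha, ha, one_mul]
  have h2 : ∀ f g : mulMon M, (f * g).1 1 = g.1 1 * f.1 1 := fun f g => h1 f (g.1 1)
  have h3 : ∀ f g : mulMon M, f.1 1 = g.1 1 → f = g := by
    intro f g hfg
    refine Subtype.ext ?_
    funext s
    rw [h1, h1 g, hfg]
  rintro e b c he ⟨x, y, hb⟩ ⟨x', y', hc⟩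
  have he' : e.1 1 * e.1 1 = e.1 1 := by rw [← h2, he]
  have hb' : y.1 1 * b.1 1 * x.1 1 = e.1 1 := by
    rw [← hb, h2, h2, mul_assoc]
  have hc' : y'.1 1 * c.1 1 * x'.1 1 = e.1 1 := by
    rw [← hc, h2, h2, mul_assoc]
  obtain ⟨h4, h5⟩ := h (e.1 1) (c.1 1) (b.1 1) he' ⟨_, _, hc'⟩ ⟨_, _, hb'⟩
  refine ⟨h3 _ _ ?_, h3 _ _ ?_⟩
  · rw [h2, h2, h2, h2, h2, h2, h2, ← mul_assoc, ← mul_assoc, ← mul_assoc, ← mul_assoc,
      ← mul_assoc]
    exact h4
  · rw [h2, h2, h2, h2, h2, h2, ← mul_assoc, ← mul_assoc, ← mul_assoc, ← mul_assoc]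
    exact h5

/-- Products in the monoid `M` are gates. -/
theorem mgate_prod {B n q : ℕ} {I : Fin q → Finset (Fin n)} {M : Type} [Monoid M] [Fintype M]
    (hM : Fintype.card M ≤ B) (hA : DOA M) (π : Equiv.Perm (Fin q))
    (a : Fin q → (Fin n → Bool) → M) (A : Set M) (ha : OnBlocks I a) {g : (Fin n → Bool) → Bool}
    (hg : ∀ x, g x = true ↔ ((List.finRange q).map fun i => a (π i) x).prod ∈ A) :
    MGate B I g := by
  refine Or.inl ⟨M, inferInstance, mulMon M, π, fun j x s => s * a j x, 1, A, hM, doa_mul hA,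
    fun j x y hxy => ?_, fun j x => ⟨a j x, fun s => rfl⟩, fun x => ?_⟩
  · show (fun s => s * a j x) = fun s => s * a j y
    rw [ha j x y hxy]
  · rw [hg, pb_prod]

end Pool.Agent.MP_ca1109_lc.Ovm
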